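import Pool.Agent.Helper69.AGF.Det

/-!
AGF module BigTri: every bounded set is in the interior of a triangle.
-/

noncomputable section

namespace Pool.Agent.Helper69.AGF

/-- The same for bounded sets. -/
theorem exists_big_triangle' {S : Set Pt} (hS : Bornology.IsBounded S) :
    ∃ A B C : Pt, 0 < det A B C ∧ S ⊆ interior (hull {A, B, C}) := by
  obtain ⟨R, hR⟩ := hS.exists_norm_le
  set M : ℝ := |R| + 1 with hM
  have hM0 : 0 < M := by positivity
  have hpos : 0 < det (-3 * M, -M) (3 * M, -M) (0, 5 * M) := by
    simp only [det]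
    nlinarith
  refine ⟨(-3 * M, -M), (3 * M, -M), (0, 5 * M), hpos, ?_⟩
  rw [interior_hull3 hpos]
  intro p hp
  have h1 : ‖p‖ < M := by
    have := hR p hp
    have := le_abs_self R
    linarith
  have hx : |p.1| < M := lt_of_le_of_lt (by simpa using norm_fst_le p) h1
  have hy : |p.2| < M := lt_of_le_of_lt (by simpa using norm_snd_le p) h1
  rw [abs_lt] at hx hy
  have a1 : 0 < M * (p.2 + M) := mul_pos hM0 (by linarith)
  have a2 : 0 < M * (M - p.2) := mul_pos hM0 (by linarith)
  have a3 : 0 < M * (p.1 + M) := mul_pos hM0 (by linarith)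
  have a4 : 0 < M * (M - p.1) := mul_pos hM0 (by linarith)
  have a5 : 0 < M * M := mul_pos hM0 hM0
  refine ⟨?_, ?_, ?_⟩
  · simp only [det]; nlinarith
  · simp only [det]; nlinarith
  · simp only [det]; nlinarith

/-- Every finite set of points is contained in the interior of a (positively oriented) triangle. -/
theorem exists_big_triangle (V : Finset Pt) :
    ∃ A B C : Pt, 0 < det A B C ∧ ∀ p ∈ V, p ∈ interior (hull {A, B, C}) := by
  obtain ⟨A, B, C, h1, h2⟩ := exists_big_triangle' (S := (V : Set Pt)) V.finite_toSet.isBounded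
  exact ⟨A, B, C, h1, fun p hp => h2 (by exact_mod_cast hp)⟩

end Pool.Agent.Helper69.AGF

end
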