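import Pool.Agent.Helper69.AGF.Lower

/-!
AGF module Cocycle: every Z/2 cocycle on the sides of a triangulation of a convex region is a coboundary.

The function f is constructed by adding the vertices in lexicographic order. For a new vertex a with a lower
neighbour u0 put f a = f u0 + z {a, u0}. Two lower neighbours u, u' of a give the same value: induction principle
between_induction (base: the triangle {a,u,u'}; intermediate neighbours of two lower neighbours are lower).
-/

noncomputable section

namespace Pool.Agent.Helper69.AGF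

variable {T : Finset (Finset Pt)}

private lemma cocycle_sum3 (z : Finset Pt → ZMod 2) {a u u' : Pt} (h1 : a ≠ u) (h2 : a ≠ u')
    (h3 : u ≠ u') : ∑ e ∈ ({a, u, u'} : Finset Pt).powersetCard 2, z e =
      z {a, u} + z {a, u'} + z {u, u'} := by
  have hset : ({a, u, u'} : Finset Pt).powersetCard 2 =
      ({({a, u} : Finset Pt), {a, u'}, {u, u'}} : Finset (Finset Pt)) := by
    ext e
    rw [Finset.mem_powersetCard]
    constructor
    · rintro ⟨hsub, hcard⟩
      obtain ⟨x, y, hxy, rfl⟩ := Finset.card_eq_two.mp hcard
      have hx := hsub (Finset.mem_insert_self x {y})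
      have hy := hsub (Finset.mem_insert_of_mem (Finset.mem_singleton_self y))
      simp only [Finset.mem_insert, Finset.mem_singleton] at hx hy ⊢
      rcases hx with rfl | rfl | rfl <;> rcases hy with rfl | rfl | rfl
      · exact absurd rfl hxy
      · exact Or.inl rfl
      · exact Or.inr (Or.inl rfl)
      · exact Or.inl (Finset.pair_comm _ _)
      · exact absurd rfl hxy
      · exact Or.inr (Or.inr rfl)
      · exact Or.inr (Or.inl (Finset.pair_comm _ _))
      · exact Or.inr (Or.inr (Finset.pair_comm _ _))
      · exact absurd rfl hxy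
    · intro he
      simp only [Finset.mem_insert, Finset.mem_singleton] at he
      rcases he with rfl | rfl | rfl
      · refine ⟨?_, Finset.card_pair h1⟩
        intro q hq
        simp only [Finset.mem_insert, Finset.mem_singleton] at hq ⊢
        tauto
      · refine ⟨?_, Finset.card_pair h2⟩
        intro q hq
        simp only [Finset.mem_insert, Finset.mem_singleton] at hq ⊢
        tauto
      · refine ⟨?_, Finset.card_pair h3⟩
        intro q hq
        simp only [Finset.mem_insert, Finset.mem_singleton] at hq ⊢
        tauto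
  have hu' : u' ∉ ({a, u} : Finset Pt) := by
    simp only [Finset.mem_insert, Finset.mem_singleton, not_or]
    exact ⟨fun h => h2 h.symm, fun h => h3 h.symm⟩
  have ha : a ∉ ({u, u'} : Finset Pt) := by
    simp only [Finset.mem_insert, Finset.mem_singleton, not_or]
    exact ⟨h1, h2⟩
  have e1 : ({a, u} : Finset Pt) ∉ ({({a, u'} : Finset Pt), {u, u'}} : Finset (Finset Pt)) := by
    simp only [Finset.mem_insert, Finset.mem_singleton, not_or]
    constructor
    · intro h
      apply hu'
      rw [h]
      exact Finset.mem_insert_of_mem (Finset.mem_singleton_self _)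
    · intro h
      apply ha
      rw [← h]
      exact Finset.mem_insert_self _ _
  have e2 : ({a, u'} : Finset Pt) ∉ ({({u, u'} : Finset Pt)} : Finset (Finset Pt)) := by
    simp only [Finset.mem_singleton]
    intro h
    apply ha
    rw [← h]
    exact Finset.mem_insert_self _ _
  rw [hset, Finset.sum_insert e1, Finset.sum_insert e2, Finset.sum_singleton, add_assoc]

private lemma cocycle_z2 : ∀ p q r s t : ZMod 2, p + q + r = 0 → r = s + t → s + p = t + q := by
  decide

private lemma cocycle_z2' : ∀ p q r : ZMod 2, p + q = r → q = r + p := by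
  decide

private lemma cocycle_lex {p q : Pt} : toLex p < toLex q ↔ p.1 < q.1 ∨ p.1 = q.1 ∧ p.2 < q.2 := by
  rw [Prod.Lex.toLex_lt_toLex]

/-- A neighbour strictly between two lower ones is lower. -/
private lemma cocycle_lower {a u w u' : Pt} (h1 : 0 < det a u w) (h2 : 0 < det a w u')
    (h3 : 0 < det a u u') (hu : toLex u < toLex a) (hu' : toLex u' < toLex a) :
    toLex w < toLex a := by
  rw [cocycle_lex] at hu hu' ⊢
  have e1 : det a u u' * (w.1 - a.1) = det a w u' * (u.1 - a.1) + det a u w * (u'.1 - a.1) := by
    unfold det; ring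
  have e2 : det a u u' * (w.2 - a.2) = det a w u' * (u.2 - a.2) + det a u w * (u'.2 - a.2) := by
    unfold det; ring
  have key : ∀ x : ℝ, det a u u' * x < 0 → x < 0 := by
    intro x hx
    by_contra hcon
    push Not at hcon
    have := mul_nonneg h3.le hcon
    linarith
  have neg : ∀ {c x : ℝ}, 0 < c → x < 0 → c * x < 0 := fun hc hx => mul_neg_of_pos_of_neg hc hx
  rcases hu with hu | ⟨hu, hu2⟩
  · left
    have hx : det a w u' * (u.1 - a.1) < 0 := neg h2 (by linarith)
    have hy : det a u w * (u'.1 - a.1) ≤ 0 := by
      rcases hu' with hu' | ⟨hu', _⟩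
      · exact (neg h1 (by linarith)).le
      · rw [hu', sub_self, mul_zero]
    have := key _ (by rw [e1]; linarith)
    linarith
  · rcases hu' with hu' | ⟨hu', hu2'⟩
    · left
      have hx : det a w u' * (u.1 - a.1) = 0 := by rw [hu, sub_self, mul_zero]
      have hy : det a u w * (u'.1 - a.1) < 0 := neg h1 (by linarith)
      have := key _ (by rw [e1]; linarith)
      linarith
    · right
      have hx : det a w u' * (u.1 - a.1) = 0 := by rw [hu, sub_self, mul_zero]
      have hy : det a u w * (u'.1 - a.1) = 0 := by rw [hu', sub_self, mul_zero]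
      have hw1 : det a u u' * (w.1 - a.1) = 0 := by rw [e1, hx, hy, add_zero]
      have hw1' : w.1 = a.1 := by
        rcases mul_eq_zero.mp hw1 with h | h
        · exact absurd h h3.ne'
        · linarith
      refine ⟨hw1', ?_⟩
      have hx2 : det a w u' * (u.2 - a.2) < 0 := neg h2 (by linarith)
      have hy2 : det a u w * (u'.2 - a.2) < 0 := neg h1 (by linarith)
      have := key _ (by rw [e2]; linarith)
      linarith

/-- Two lower neighbours of a with determinant zero are equal. -/
private lemma cocycle_par (hT : IsTri T) {a u u' : Pt} (hs : ({a, u} : Finset Pt) ∈ sides T)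
    (hs' : ({a, u'} : Finset Pt) ∈ sides T) (h0 : det a u u' = 0) (hu : toLex u < toLex a)
    (hu' : toLex u' < toLex a) : u = u' := by
  rw [cocycle_lex] at hu hu'
  have h0' : (u.1 - a.1) * (u'.2 - a.2) = (u.2 - a.2) * (u'.1 - a.1) := by
    unfold det at h0; linarith
  rcases hu with hu | ⟨hu, hu2⟩
  · have hn : u.1 - a.1 < 0 := by linarith
    have hn' : u'.1 - a.1 < 0 := by
      rcases hu' with hu' | ⟨hu', hu2'⟩
      · linarith
      · exfalso
        rw [hu', sub_self, mul_zero] at h0'
        rcases mul_eq_zero.mp h0' with h | h <;> linarith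
    refine hT.same_dir hs hs' (c := (u'.1 - a.1) / (u.1 - a.1)) (div_pos_of_neg_of_neg hn' hn) ?_
    apply Prod.ext
    · simp only [Prod.fst_sub, Prod.smul_fst, smul_eq_mul]
      rw [div_mul_cancel₀ _ hn.ne]
    · simp only [Prod.snd_sub, Prod.smul_snd, smul_eq_mul]
      rw [div_mul_eq_mul_div, eq_div_iff hn.ne]
      linarith
  · have hn : u.2 - a.2 < 0 := by linarith
    have hz : u.1 - a.1 = 0 := by linarith
    rw [hz, zero_mul] at h0'
    have hz' : u'.1 - a.1 = 0 := by
      rcases mul_eq_zero.mp h0'.symm with h | h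
      · linarith
      · exact h
    have hn' : u'.2 - a.2 < 0 := by
      rcases hu' with hu' | ⟨hu', hu2'⟩ <;> linarith
    refine hT.same_dir hs hs' (c := (u'.2 - a.2) / (u.2 - a.2)) (div_pos_of_neg_of_neg hn' hn) ?_
    apply Prod.ext
    · simp only [Prod.fst_sub, Prod.smul_fst, smul_eq_mul]
      rw [hz, hz', mul_zero]
    · simp only [Prod.snd_sub, Prod.smul_snd, smul_eq_mul]
      rw [div_mul_cancel₀ _ hn.ne]

private lemma cocycle_side_verts {x y : Pt} (h : ({x, y} : Finset Pt) ∈ sides T) :
    x ≠ y ∧ x ∈ verts T ∧ y ∈ verts T := by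
  rw [mem_sides] at h
  obtain ⟨h2, t, ht, hsub⟩ := h
  refine ⟨?_, ?_, ?_⟩
  · rintro rfl
    simp at h2
  · exact mem_verts.mpr ⟨t, ht, hsub (Finset.mem_insert_self _ _)⟩
  · exact mem_verts.mpr ⟨t, ht, hsub (Finset.mem_insert_of_mem (Finset.mem_singleton_self _))⟩

/-- All lower neighbours of a give the same value. -/
private lemma cocycle_same (hT : IsTri T) (hconv : Convex ℝ (region T)) (z : Finset Pt → ZMod 2)
    (hz : ∀ t ∈ T, ∑ e ∈ t.powersetCard 2, z e = 0) (f : Pt → ZMod 2) (a : Pt)
    (hf : ∀ x y : Pt, toLex x < toLex a → toLex y < toLex a → ({x, y} : Finset Pt) ∈ sides T →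
      z {x, y} = f x + f y)
    {u u' : Pt} (hs : ({a, u} : Finset Pt) ∈ sides T) (hs' : ({a, u'} : Finset Pt) ∈ sides T)
    (hu : toLex u < toLex a) (hu' : toLex u' < toLex a) :
    f u + z {a, u} = f u' + z {a, u'} := by
  have hmain : ∀ u u' : Pt, ({a, u} : Finset Pt) ∈ sides T → ({a, u'} : Finset Pt) ∈ sides T →
      0 < det a u u' → (toLex u < toLex a → toLex u' < toLex a →
        f u + z {a, u} = f u' + z {a, u'}) := by
    intro u u' hs hs' hd
    refine hT.between_induction hconv
      (R := fun u u' => toLex u < toLex a → toLex u' < toLex a →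
        f u + z {a, u} = f u' + z {a, u'}) ?_ ?_ hs hs' hd
    · intro u u' ht hd hu hu'
      have h1 : a ≠ u := by
        rintro rfl
        simp at hd
      have h2 : a ≠ u' := by
        rintro rfl
        simp at hd
      have h3 : u ≠ u' := by
        rintro rfl
        simp at hd
      have hsum := hz _ ht
      rw [cocycle_sum3 z h1 h2 h3] at hsum
      have hside : ({u, u'} : Finset Pt) ∈ sides T := by
        rw [mem_sides]
        refine ⟨Finset.card_pair h3, _, ht, ?_⟩
        intro q hq
        simp only [Finset.mem_insert, Finset.mem_singleton] at hq ⊢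
        tauto
      exact cocycle_z2 _ _ _ _ _ hsum (hf u u' hu hu' hside)
    · intro u w u' _ _ _ h1 h2 h3 r1 r2 hu hu'
      have hw := cocycle_lower h1 h2 h3 hu hu'
      exact (r1 hu hw).trans (r2 hw hu')
  rcases lt_trichotomy (det a u u') 0 with h | h | h
  · have h' : 0 < det a u' u := by
      rw [det_swap' a u u']
      linarith
    exact (hmain u' u hs' hs h' hu' hu).symm
  · rw [cocycle_par hT hs hs' h hu hu']
  · exact hmain u u' hs hs' h hu hu'

theorem IsTri.cocycle (hT : IsTri T) (hconv : Convex ℝ (region T)) (z : Finset Pt → ZMod 2)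
    (hz : ∀ t ∈ T, ∑ e ∈ t.powersetCard 2, z e = 0) :
    ∃ f : Pt → ZMod 2, ∀ x y : Pt, ({x, y} : Finset Pt) ∈ sides T → z {x, y} = f x + f y := by
  have main : ∀ s : Finset Pt, (∀ x ∈ s, ∀ y ∈ verts T, toLex y < toLex x → y ∈ s) →
      ∃ f : Pt → ZMod 2, ∀ x ∈ s, ∀ y ∈ s, ({x, y} : Finset Pt) ∈ sides T →
        z {x, y} = f x + f y := by
    intro s
    refine Finset.induction_on_max_value (fun p : Pt => toLex p)
      (motive := fun s => (∀ x ∈ s, ∀ y ∈ verts T, toLex y < toLex x → y ∈ s) →
      ∃ f : Pt → ZMod 2, ∀ x ∈ s, ∀ y ∈ s, ({x, y} : Finset Pt) ∈ sides T →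
        z {x, y} = f x + f y) s ?_ ?_
    · intro _
      exact ⟨fun _ => 0, fun x hx => absurd hx (Finset.notMem_empty x)⟩
    · intro a s ha hmax ih hcl
      have hlt : ∀ x ∈ s, toLex x < toLex a := by
        intro x hx
        refine lt_of_le_of_ne (hmax x hx) ?_
        intro h
        have hxa : x = a := toLex.injective h
        exact ha (hxa ▸ hx)
      have hlow : ∀ y ∈ verts T, toLex y < toLex a → y ∈ s := by
        intro y hy hya
        have := hcl a (Finset.mem_insert_self a s) y hy hya
        rw [Finset.mem_insert] at this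
        rcases this with h | h
        · rw [h] at hya
          exact absurd hya (lt_irrefl _)
        · exact h
      have hcl' : ∀ x ∈ s, ∀ y ∈ verts T, toLex y < toLex x → y ∈ s := by
        intro x hx y hy hyx
        exact hlow y hy (hyx.trans (hlt x hx))
      obtain ⟨f, hf⟩ := ih hcl'
      have hf' : ∀ x y : Pt, toLex x < toLex a → toLex y < toLex a →
          ({x, y} : Finset Pt) ∈ sides T → z {x, y} = f x + f y := by
        intro x y hx hy hxy
        obtain ⟨_, hxv, hyv⟩ := cocycle_side_verts hxy
        exact hf x (hlow x hxv hx) y (hlow y hyv hy) hxy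
      -- the value at a
      have hval : ∃ c : ZMod 2, ∀ u ∈ s, ({a, u} : Finset Pt) ∈ sides T → z {a, u} = c + f u := by
        by_cases hex : ∃ u0 ∈ s, ({a, u0} : Finset Pt) ∈ sides T
        · obtain ⟨u0, hu0, hs0⟩ := hex
          refine ⟨f u0 + z {a, u0}, ?_⟩
          intro u hu hs
          have := cocycle_same hT hconv z hz f a hf' hs hs0 (hlt u hu) (hlt u0 hu0)
          exact cocycle_z2' _ _ _ this
        · refine ⟨0, ?_⟩
          intro u hu hs
          exact absurd ⟨u, hu, hs⟩ hex
      obtain ⟨c, hc⟩ := hval
      refine ⟨Function.update f a c, ?_⟩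
      intro x hx y hy hxy
      obtain ⟨hne, _, _⟩ := cocycle_side_verts hxy
      rw [Finset.mem_insert] at hx hy
      have hup : ∀ w ∈ s, Function.update f a c w = f w := by
        intro w hw
        rw [Function.update_of_ne]
        rintro rfl
        exact ha hw
      rcases hx with rfl | hx
      · rcases hy with rfl | hy
        · exact absurd rfl hne
        · rw [hup y hy, Function.update_self]
          exact hc y hy hxy
      · rcases hy with rfl | hy
        · rw [hup x hx, Function.update_self, Finset.pair_comm x y, add_comm (f x) c]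
          exact hc x hx (by rw [Finset.pair_comm y x]; exact hxy)
        · rw [hup x hx, hup y hy]
          exact hf x hx y hy hxy
  obtain ⟨f, hf⟩ := main (verts T) (fun _ _ y hy _ => hy)
  refine ⟨f, ?_⟩
  intro x y hxy
  obtain ⟨_, hx, hy⟩ := cocycle_side_verts hxy
  exact hf x hx y hy hxy

end Pool.Agent.Helper69.AGF

end
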