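import Pool.Agent.Helper69.AGF.RankLow
import Pool.Agent.Helper69.AGF.Cocycle

/-!
AGF module Rank: the cycle rank of the dual graph is at most the number of boundary polygons minus one.

PROOF HINTS. rank_up: for z in ker (bdMap) let zz : Finset Pt -> ZMod 2 be its extension by zero. For t in T the sum over
t.powersetCard 2 of zz is (bdMap z) t = 0; for t in T' \ T all sides e of t have zz e = 0 (a diagonal of T contained in t would force t in T by
Part.other or two_tri). So IsTri.cocycle (for T') gives f_z with zz {x,y} = f_z x + f_z y on all sides of T'. For {x,y} in E: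
zz {x,y} = 0, so f_z x = f_z y (char 2). So for v in verts T connected to r i by edges of E, f_z v = f_z (r i) (induction along ReflTransGen).
The map z |-> (i : Fin k |-> f_z (r i.succ) + f_z (r 0)) is injective: if z and z' have the same image then c := f_z (r i) + f_z' (r i) is
independent of i : Fin (k+1), so f_z v + f_z' v = c for all v in verts T and for every diagonal {x,y} of T:
z {x,y} + z' {x,y} = f_z x + f_z y + f_z' x + f_z' y = c + c = 0, so z = z'. Hence card (ker) <= card (Fin k -> ZMod 2) = 2^k, and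
card (ker) = 2 ^ finrank (card_eq_pow_finrank), so finrank <= k.
euler: combine rank_low, rank_up and Part.count (omega): 3F = 2D + n, D + c <= F + k give 2F + c <= D + n + k.
-/

noncomputable section

open scoped Classical

namespace Pool.Agent.Helper69.AGF

variable {T' T E : Finset (Finset Pt)}

/-- Extension by zero of a chain on the diagonals. -/
private def ext0 (T E : Finset (Finset Pt)) (z : {e // e ∈ diags T E} → ZMod 2) (e : Finset Pt) : ZMod 2 :=
  if h : e ∈ diags T E then z ⟨e, h⟩ else 0

private lemma ext0_mem (z : {e // e ∈ diags T E} → ZMod 2) (e : {e // e ∈ diags T E}) :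
    ext0 T E z e.1 = z e := by
  simp [ext0, e.2]

private lemma ext0_not_mem (z : {e // e ∈ diags T E} → ZMod 2) {e : Finset Pt}
    (he : e ∉ diags T E) : ext0 T E z e = 0 := by
  simp [ext0, he]

private lemma ext0_sum (h : Part T' T E) (z : {e // e ∈ diags T E} → ZMod 2)
    (hz : bdMap T E z = 0) : ∀ t ∈ T', ∑ e ∈ t.powersetCard 2, ext0 T E z e = 0 := by
  intro t ht'
  by_cases ht : t ∈ T
  · have h1 : (bdMap T E z) ⟨t, ht⟩ = 0 := by rw [hz]; rfl
    change (∑ e : {e // e ∈ diags T E}, if e.1 ⊆ t then z e else 0) = 0 at h1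
    have h2 : (∑ e : {e // e ∈ diags T E}, if e.1 ⊆ t then z e else 0) =
        ∑ e : {e // e ∈ diags T E}, (fun e : Finset Pt => if e ⊆ t then ext0 T E z e else 0) e.1 := by
      refine Finset.sum_congr rfl fun e _ => ?_
      simp only [ext0_mem]
    rw [h2, Finset.sum_coe_sort (diags T E)
      (fun e : Finset Pt => if e ⊆ t then ext0 T E z e else 0), ← Finset.sum_filter] at h1
    rw [← h1]
    symm
    refine Finset.sum_subset ?_ ?_
    · intro e he
      rw [Finset.mem_filter] at he
      rw [Finset.mem_powersetCard]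
      exact ⟨he.2, (mem_sides.1 (mem_diags.1 he.1).1).1⟩
    · intro e he hne
      apply ext0_not_mem
      intro hd
      apply hne
      rw [Finset.mem_filter]
      exact ⟨hd, (Finset.mem_powersetCard.1 he).1⟩
  · refine Finset.sum_eq_zero fun e he => ?_
    apply ext0_not_mem
    intro hd
    obtain ⟨t1, ht1, t2, ht2, -, -, -, hu⟩ := h.two_tri hd
    rcases hu t ht' (Finset.mem_powersetCard.1 he).1 with rfl | rfl
    · exact ht ht1
    · exact ht ht2

private lemma two_eq {a b : ZMod 2} (h : a + b = 0) : a = b := by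
  revert h
  revert a b
  decide

private lemma exists_pot (h : Part T' T E) (k : ℕ) (r : Fin (k + 1) → Pt)
    (hr : ∀ v ∈ verts T, ∃ i, Relation.ReflTransGen (fun x y : Pt => ({x, y} : Finset Pt) ∈ E) (r i) v)
    (z : {e // e ∈ diags T E} → ZMod 2) (hz : bdMap T E z = 0) :
    ∃ f : Pt → ZMod 2, (∀ x y : Pt, ({x, y} : Finset Pt) ∈ sides T' →
      ext0 T E z {x, y} = f x + f y) ∧
      (∀ i v, Relation.ReflTransGen (fun x y : Pt => ({x, y} : Finset Pt) ∈ E) (r i) v →
        f v = f (r i)) := by
  obtain ⟨f, hf⟩ := h.tri.cocycle h.conv (ext0 T E z) (ext0_sum h z hz)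
  refine ⟨f, hf, ?_⟩
  intro i v hv
  induction hv with
  | refl => rfl
  | tail _ hbc ih =>
    rw [← ih]
    symm
    apply two_eq
    rw [← hf _ _ (h.edge_side hbc)]
    apply ext0_not_mem
    intro hd
    exact (mem_diags.1 hd).2 hbc

theorem Part.rank_up (h : Part T' T E) (k : ℕ) (r : Fin (k + 1) → Pt)
    (hr : ∀ v ∈ verts T, ∃ i, Relation.ReflTransGen (fun x y : Pt => ({x, y} : Finset Pt) ∈ E) (r i) v) :
    Module.finrank (ZMod 2) (LinearMap.ker (bdMap T E)) ≤ k := by
  have hex : ∀ z : LinearMap.ker (bdMap T E), ∃ f : Pt → ZMod 2,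
      (∀ x y : Pt, ({x, y} : Finset Pt) ∈ sides T' → ext0 T E z.1 {x, y} = f x + f y) ∧
      (∀ i v, Relation.ReflTransGen (fun x y : Pt => ({x, y} : Finset Pt) ∈ E) (r i) v →
        f v = f (r i)) := fun z => exists_pot h k r hr z.1 (LinearMap.mem_ker.1 z.2)
  choose F hF1 hF2 using hex
  have hinj : Function.Injective
      (fun (z : LinearMap.ker (bdMap T E)) (i : Fin k) => F z (r i.succ) + F z (r 0)) := by
    intro z z' hzz
    have h1 : ∀ i : Fin (k + 1), F z (r i) + F z' (r i) = F z (r 0) + F z' (r 0) := by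
      intro i
      refine Fin.cases rfl (fun j => ?_) i
      have h2 := congrFun hzz j
      simp only at h2
      have key : ∀ a b c d : ZMod 2, a + b = c + d → a + c = b + d := by decide
      exact key _ _ _ _ h2
    have h3 : ∀ v ∈ verts T, F z v + F z' v = F z (r 0) + F z' (r 0) := by
      intro v hv
      obtain ⟨i, hi⟩ := hr v hv
      rw [hF2 z i v hi, hF2 z' i v hi, h1 i]
    apply Subtype.ext
    funext e
    obtain ⟨hcard, t, ht, het⟩ := mem_sides.1 (mem_diags.1 e.2).1
    obtain ⟨x, y, hxy, hexy⟩ := Finset.card_eq_two.1 hcard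
    have hS : ({x, y} : Finset Pt) ∈ sides T' := by
      rw [← hexy]
      exact mem_sides.2 ⟨hcard, t, h.sub ht, het⟩
    have hx : x ∈ verts T := mem_verts.2 ⟨t, ht, het (by rw [hexy]; simp)⟩
    have hy : y ∈ verts T := mem_verts.2 ⟨t, ht, het (by rw [hexy]; simp)⟩
    have h4 := hF1 z x y hS
    have h5 := hF1 z' x y hS
    rw [← hexy, ext0_mem] at h4 h5
    have h6 := h3 x hx
    have h7 := h3 y hy
    rw [h4, h5]
    have key : ∀ a b c d e : ZMod 2, a + c = e → b + d = e → a + b = c + d := by decide
    exact key _ _ _ _ _ h6 h7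
  haveI : Fintype (LinearMap.ker (bdMap T E)) := Fintype.ofFinite _
  have hcard := Fintype.card_le_of_injective _ hinj
  rw [Module.card_eq_pow_finrank (K := ZMod 2) (V := LinearMap.ker (bdMap T E)), ZMod.card,
    Fintype.card_fun, ZMod.card, Fintype.card_fin] at hcard
  exact (Nat.pow_le_pow_iff_right (by norm_num)).1 hcard

/-- The main count: 2 F - D + c <= n + h. -/
theorem Part.euler (h : Part T' T E) (k : ℕ) (r : Fin (k + 1) → Pt)
    (hr : ∀ v ∈ verts T, ∃ i, Relation.ReflTransGen (fun x y : Pt => ({x, y} : Finset Pt) ∈ E) (r i) v) :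
    2 * T.card + Nat.card (dual T).ConnectedComponent ≤ (diags T E).card + E.card + k := by
  have h1 := h.rank_low
  have h2 := h.rank_up k r hr
  have h3 := h.count
  omega

end Pool.Agent.Helper69.AGF

end
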