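import Pool.Agent.Helper69.AGF.Defs

/-!
Basic algebra of the orientation determinant; membership in segments and triangles.
-/

noncomputable section

namespace Pool.Agent.Helper69.AGF

lemma det_rot (a b c : Pt) : det b c a = det a b c := by unfold det; ring

lemma det_rot' (a b c : Pt) : det c a b = det a b c := by unfold det; ring

lemma det_swap (a b c : Pt) : det b a c = - det a b c := by unfold det; ring

lemma det_swap' (a b c : Pt) : det a c b = - det a b c := by unfold det; ring

lemma det_swap'' (a b c : Pt) : det c b a = - det a b c := by unfold det; ring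

@[simp] lemma det_aac (a c : Pt) : det a a c = 0 := by unfold det; ring

@[simp] lemma det_abb (a b : Pt) : det a b b = 0 := by unfold det; ring

@[simp] lemma det_aba (a b : Pt) : det a b a = 0 := by unfold det; ring

/-- The three signed areas of the triangles with apex p add up. -/
lemma det_split (a b c p : Pt) : det a b p + det b c p + det c a p = det a b c := by
  unfold det; ring

/-- The determinant is affine in the last argument. -/
lemma det_comb (a b x y : Pt) (s t : ℝ) (h : s + t = 1) :
    det a b (s • x + t • y) = s * det a b x + t * det a b y := by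
  obtain rfl : t = 1 - s := by linarith
  simp only [det, Prod.fst_add, Prod.smul_fst, smul_eq_mul, Prod.snd_add, Prod.smul_snd]
  ring

lemma det_comb3 (a b x y z : Pt) (r s t : ℝ) (h : r + s + t = 1) :
    det a b (r • x + s • y + t • z) = r * det a b x + s * det a b y + t * det a b z := by
  obtain rfl : t = 1 - s - r := by linarith
  simp only [det, Prod.fst_add, Prod.smul_fst, smul_eq_mul, Prod.snd_add, Prod.smul_snd]
  ring

/-- Barycentric coordinates. -/
lemma bary (a b c p : Pt) (h : det a b c ≠ 0) :
    p = (det b c p / det a b c) • a + (det c a p / det a b c) • b + (det a b p / det a b c) • c := by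
  have e1 : det b c p * a.1 + det c a p * b.1 + det a b p * c.1 = det a b c * p.1 := by
    unfold det; ring
  have e2 : det b c p * a.2 + det c a p * b.2 + det a b p * c.2 = det a b c * p.2 := by
    unfold det; ring
  apply Prod.ext
  · simp only [Prod.fst_add, Prod.smul_fst, smul_eq_mul]
    field_simp
    linarith
  · simp only [Prod.snd_add, Prod.smul_snd, smul_eq_mul]
    field_simp
    linarith

lemma hull_mono {s t : Finset Pt} (h : s ⊆ t) : hull s ⊆ hull t :=
  convexHull_mono (by exact_mod_cast h)

@[simp] lemma hull_empty : hull (∅ : Finset Pt) = ∅ := by simp [hull]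

@[simp] lemma hull_singleton (a : Pt) : hull {a} = {a} := by simp [hull]

lemma hull_pair (a b : Pt) : hull {a, b} = segment ℝ a b := by
  unfold hull
  push_cast
  exact convexHull_pair a b

lemma convex_hull (t : Finset Pt) : Convex ℝ (hull t) := convex_convexHull ℝ _

lemma subset_hull {t : Finset Pt} {p : Pt} (h : p ∈ t) : p ∈ hull t :=
  subset_convexHull ℝ _ (by exact_mod_cast h)

lemma isCompact_hull (t : Finset Pt) : IsCompact (hull t) :=
  (Finset.finite_toSet t).isCompact_convexHull (𝕜 := ℝ)

lemma isClosed_hull (t : Finset Pt) : IsClosed (hull t) := (isCompact_hull t).isClosed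

/-- Points of a triangle. -/
lemma mem_hull3_comb {a b c p : Pt} : p ∈ hull {a, b, c} ↔
    ∃ r s t : ℝ, 0 ≤ r ∧ 0 ≤ s ∧ 0 ≤ t ∧ r + s + t = 1 ∧ p = r • a + s • b + t • c := by
  unfold hull
  push_cast
  rw [convexHull_insert (by simp), convexHull_pair]
  simp only [mem_convexJoin, Set.mem_singleton_iff, exists_eq_left]
  constructor
  · rintro ⟨q, ⟨s, t, hs, ht, hst, rfl⟩, ⟨u, w, hu, hw, huw, rfl⟩⟩
    refine ⟨u, w * s, w * t, hu, mul_nonneg hw hs, mul_nonneg hw ht, ?_, ?_⟩
    · rw [add_assoc, ← mul_add, hst, mul_one, huw]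
    · simp only [smul_add, smul_smul, add_assoc]
  · rintro ⟨r, s, t, hr, hs, ht, h, rfl⟩
    by_cases hz : s + t = 0
    · have hs0 : s = 0 := by linarith
      have ht0 : t = 0 := by linarith
      subst hs0; subst ht0
      have : r = 1 := by linarith
      subst this
      refine ⟨b, left_mem_segment ℝ b c, ?_⟩
      simpa using left_mem_segment ℝ a b
    · refine ⟨(s / (s + t)) • b + (t / (s + t)) • c,
        ⟨s / (s + t), t / (s + t), by positivity, by positivity, by field_simp, rfl⟩,
        ⟨r, s + t, hr, by positivity, by linarith, ?_⟩⟩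
      simp only [smul_add, smul_smul]
      rw [mul_div_cancel₀ _ hz, mul_div_cancel₀ _ hz, ← add_assoc]

/-- A point is in the positively oriented triangle a b c iff the three determinants are nonnegative. -/
lemma mem_hull3 {a b c p : Pt} (h : 0 < det a b c) :
    p ∈ hull {a, b, c} ↔ 0 ≤ det a b p ∧ 0 ≤ det b c p ∧ 0 ≤ det c a p := by
  rw [mem_hull3_comb]
  constructor
  · rintro ⟨r, s, t, hr, hs, ht, h1, rfl⟩
    rw [det_comb3 _ _ _ _ _ _ _ _ h1, det_comb3 _ _ _ _ _ _ _ _ h1, det_comb3 _ _ _ _ _ _ _ _ h1]
    simp only [det_aba, det_abb, mul_zero, zero_add, add_zero, det_rot, det_rot']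
    exact ⟨mul_nonneg ht h.le, mul_nonneg hr h.le, mul_nonneg hs h.le⟩
  · rintro ⟨h1, h2, h3⟩
    refine ⟨_, _, _, div_nonneg h2 h.le, div_nonneg h3 h.le, div_nonneg h1 h.le, ?_,
      bary a b c p h.ne'⟩
    have := det_split a b c p
    field_simp
    linarith

lemma mem_hull2 {a b p : Pt} : p ∈ hull {a, b} ↔ p ∈ segment ℝ a b := by rw [hull_pair]

/-- A point of the segment a b has determinant zero. -/
lemma det_of_mem_segment {a b p : Pt} (h : p ∈ segment ℝ a b) : det a b p = 0 := by
  obtain ⟨s, t, hs, ht, hst, rfl⟩ := h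
  rw [det_comb _ _ _ _ _ _ hst]; simp

/-- The value of an affine functional at a point of a segment is between the values at the ends. -/
lemma det_mem_segment {a b x y p : Pt} (h : p ∈ segment ℝ x y) :
    ∃ s t : ℝ, 0 ≤ s ∧ 0 ≤ t ∧ s + t = 1 ∧ p = s • x + t • y ∧
      det a b p = s * det a b x + t * det a b y := by
  obtain ⟨s, t, hs, ht, hst, rfl⟩ := h
  exact ⟨s, t, hs, ht, hst, rfl, det_comb _ _ _ _ _ _ hst⟩

/-- If det a b c > 0, a point of the triangle a b c with det a b p = 0 is on the segment a b. -/
lemma mem_segment_of_mem_hull3 {a b c p : Pt} (h : det a b c ≠ 0) (hp : p ∈ hull {a, b, c})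
    (h0 : det a b p = 0) : p ∈ segment ℝ a b := by
  rw [mem_hull3_comb] at hp
  obtain ⟨r, s, t, hr, hs, ht, h1, rfl⟩ := hp
  rw [det_comb3 _ _ _ _ _ _ _ _ h1] at h0
  simp only [det_aba, det_abb, mul_zero, zero_add] at h0
  have ht0 : t = 0 := by
    rcases mul_eq_zero.mp h0 with h' | h'
    · exact h'
    · exact absurd h' h
  subst ht0
  exact ⟨r, s, hr, hs, by linarith, by simp⟩

/-- A vertex of a non degenerate triangle which lies in the hull of a subset of the vertices belongs
to the subset. -/
lemma vertex_mem_of_hull {a b c : Pt} (h : det a b c ≠ 0) {s : Finset Pt} (hs : s ⊆ {a, b, c})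
    {p : Pt} (hp : p ∈ ({a, b, c} : Finset Pt)) (hps : p ∈ hull s) : p ∈ s := by
  by_contra hcon
  -- s is contained in the two other vertices
  have key : ∀ x y z : Pt, det x y z ≠ 0 → s ⊆ {x, y, z} → z ∉ s → z ∈ hull s → False := by
    intro x y z hxyz hsub hz hzs
    have hsub' : s ⊆ {x, y} := by
      intro q hq
      have := hsub hq
      simp only [Finset.mem_insert, Finset.mem_singleton] at this ⊢
      rcases this with h1 | h1 | h1
      · exact Or.inl h1
      · exact Or.inr h1
      · subst h1; exact absurd hq hz
    have := hull_mono hsub' hzs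
    rw [mem_hull2] at this
    exact hxyz (det_of_mem_segment this)
  simp only [Finset.mem_insert, Finset.mem_singleton] at hp
  rcases hp with rfl | rfl | rfl
  · refine key b c p (by rwa [det_rot]) ?_ hcon hps
    intro q hq
    have := hs hq
    simp only [Finset.mem_insert, Finset.mem_singleton] at this ⊢
    tauto
  · refine key c a p (by rwa [det_rot']) ?_ hcon hps
    intro q hq
    have := hs hq
    simp only [Finset.mem_insert, Finset.mem_singleton] at this ⊢
    tauto
  · exact key a b p h hs hcon hps

lemma continuous_det (a b : Pt) : Continuous (fun p : Pt => det a b p) := by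
  unfold det; fun_prop

/-- Moving a little away from a point inside the interior of a convex set. -/
lemma det_pos_of_mem_interior {a b c p : Pt} (h : 0 < det a b c) {S : Set Pt}
    (hS : ∀ q ∈ S, 0 ≤ det a b q) (hp : p ∈ interior S) : 0 < det a b p := by
  have hcont : Filter.Tendsto (fun e : ℝ => p + e • (p - c)) (nhds 0) (nhds p) := by
    have : Continuous (fun e : ℝ => p + e • (p - c)) := by fun_prop
    have h2 := this.tendsto 0
    simpa using h2
  have hev := hcont (mem_interior_iff_mem_nhds.mp hp)
  rw [Filter.mem_map, Metric.mem_nhds_iff] at hev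
  obtain ⟨d, hd, hball⟩ := hev
  have h1 := hball (show d / 2 ∈ Metric.ball (0 : ℝ) d by
    simp [abs_of_pos hd]; linarith)
  have h2 := hS _ h1
  have h3 : det a b (p + (d / 2) • (p - c)) = (1 + d / 2) * det a b p - d / 2 * det a b c := by
    simp only [det, Prod.fst_add, Prod.smul_fst, smul_eq_mul, Prod.snd_add, Prod.smul_snd,
      Prod.fst_sub, Prod.snd_sub]
    ring
  rw [h3] at h2
  have h4 : 0 < d / 2 * det a b c := by positivity
  by_contra hcon
  push Not at hcon
  have : (1 + d / 2) * det a b p ≤ 0 := mul_nonpos_of_nonneg_of_nonpos (by positivity) hcon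
  linarith

/-- The interior of a positively oriented triangle. -/
lemma interior_hull3 {a b c : Pt} (h : 0 < det a b c) :
    interior (hull {a, b, c}) = {p | 0 < det a b p ∧ 0 < det b c p ∧ 0 < det c a p} := by
  apply Set.Subset.antisymm
  · intro p hp
    refine ⟨det_pos_of_mem_interior h (fun q hq => ((mem_hull3 h).mp hq).1) hp,
      det_pos_of_mem_interior (c := a) (by rwa [det_rot]) (fun q hq => ((mem_hull3 h).mp hq).2.1) hp,
      det_pos_of_mem_interior (c := b) (by rwa [det_rot']) (fun q hq => ((mem_hull3 h).mp hq).2.2)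
        hp⟩
  · have hopen : IsOpen {p | 0 < det a b p ∧ 0 < det b c p ∧ 0 < det c a p} :=
      (isOpen_lt continuous_const (continuous_det a b)).inter
        ((isOpen_lt continuous_const (continuous_det b c)).inter
          (isOpen_lt continuous_const (continuous_det c a)))
    rw [hopen.subset_interior_iff]
    intro p hp
    exact (mem_hull3 h).mpr ⟨hp.1.le, hp.2.1.le, hp.2.2.le⟩

/-- The triangle is the closure of its interior. -/
lemma hull3_subset_closure {a b c : Pt} (h : 0 < det a b c) :
    hull {a, b, c} ⊆ closure (interior (hull {a, b, c})) := by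
  have hne : (interior (hull {a, b, c})).Nonempty := by
    rw [interior_hull3 h]
    refine ⟨(1/3 : ℝ) • a + (1/3 : ℝ) • b + (1/3 : ℝ) • c, ?_, ?_, ?_⟩
    · rw [det_comb3 _ _ _ _ _ _ _ _ (by norm_num)]; simp [h]
    · rw [det_comb3 _ _ _ _ _ _ _ _ (by norm_num)]; simp [det_rot, h]
    · rw [det_comb3 _ _ _ _ _ _ _ _ (by norm_num)]; simp [det_rot', h]
  have := (convex_hull {a, b, c}).closure_interior_eq_closure_of_nonempty_interior hne
  rw [this]
  exact subset_closure

end Pool.Agent.Helper69.AGF

end
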