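import Pool.Agent.Helper69.AGF.Det

/-!
AGF module Basic: basic facts on triangle complexes (IsTri).

PROOF HINTS.
det_ne: {x,y,w} = {a,b,c} with 0 < det a b c; a,b,c distinct (det would vanish), so the triple (x,y,w) is one of the
  six permutations of (a,b,c): det x y w = + or - det a b c (lemmas det_rot, det_swap ... in Det.lean). Practical way:
  card {a,b,c} = 3, so x,y,w are distinct, x,y,w in {a,b,c}: rcases gives 27 cases, most closed by simp_all.
third: t = {a,b,c}; x, y in t distinct: 6 cases.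
at_vertex: t = {a,b,c}, v one of them; use det_rot.
opp: both determinants are nonzero. Suppose they have the same sign; exchanging x and y (det_swap, Finset.pair_comm) we
  may assume both positive: D = det x y w > 0, D' = det x y w' > 0. m = midpoint of x,y. For 0 < e <= 1 the point
  q = (1-e) m + e w has det x y q = e D > 0, det y w q = (1-e) D/2 >= 0, det w x q = (1-e) D/2 >= 0, so q in hull {x,y,w};
  and det y w' q = (1-e) D'/2 + e det y w' w, det w' x q = (1-e) D'/2 + e det w' x w are >= 0 for e small (take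
  e = D'/2 / (D'/2 + 1 + |det y w' w| + |det w' x w|)). So q in hull {x,y,w}, q in hull {x,y,w'}, hence by glue q in
  hull ({x,y,w} cap {x,y,w'}) and the intersection is contained in {x,y} (w is not in {x,y,w'}: w <> w' and w <> x,y since
  det x y w <> 0), so q in segment x y and det x y q = 0. Contradiction.
side_two: write t1 = {x,y,w1}, t2 = {x,y,w2}, t3 = {x,y,w3} (third); if the three w are distinct, opp gives three
  pairwise negative products of d1, d2, d3: impossible (d1 d2 < 0, d1 d3 < 0 give d2 d3 > 0).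
-/

noncomputable section

namespace Pool.Agent.Helper69.AGF

variable {T : Finset (Finset Pt)}

lemma mem_verts {v : Pt} : v ∈ verts T ↔ ∃ t ∈ T, v ∈ t := by
  simp [verts]

lemma mem_sides {e : Finset Pt} : e ∈ sides T ↔ e.card = 2 ∧ ∃ t ∈ T, e ⊆ t := by
  unfold sides
  simp only [Finset.mem_biUnion, Finset.mem_powersetCard]
  constructor
  · rintro ⟨t, ht, h1, h2⟩
    exact ⟨h2, t, ht, h1⟩
  · rintro ⟨h2, t, ht, h1⟩
    exact ⟨t, ht, h1, h2⟩

lemma mem_region {p : Pt} : p ∈ region T ↔ ∃ t ∈ T, p ∈ hull t := by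
  simp [region]

/-- The three points of a triangle of T are not collinear. -/
theorem IsTri.det_ne (hT : IsTri T) {x y w : Pt} (h : ({x, y, w} : Finset Pt) ∈ T) :
    det x y w ≠ 0 := by
  obtain ⟨a, b, c, habc, hpos⟩ := hT.tri _ h
  intro h0
  have ha : a = x ∨ a = y ∨ a = w := by
    have : a ∈ ({x, y, w} : Finset Pt) := by rw [habc]; simp
    simpa using this
  have hb : b = x ∨ b = y ∨ b = w := by
    have : b ∈ ({x, y, w} : Finset Pt) := by rw [habc]; simp
    simpa using this
  have hc : c = x ∨ c = y ∨ c = w := by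
    have : c ∈ ({x, y, w} : Finset Pt) := by rw [habc]; simp
    simpa using this
  clear habc
  unfold det at hpos h0
  rcases ha with rfl | rfl | rfl <;> rcases hb with rfl | rfl | rfl <;>
    rcases hc with rfl | rfl | rfl <;> linarith

theorem IsTri.card (hT : IsTri T) {t : Finset Pt} (ht : t ∈ T) : t.card = 3 := by
  obtain ⟨a, b, c, habc, hpos⟩ := hT.tri _ ht
  rw [Finset.card_eq_three]
  refine ⟨a, b, c, ?_, ?_, ?_, habc⟩
  · rintro rfl
    simp at hpos
  · rintro rfl
    simp at hpos
  · rintro rfl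
    simp at hpos

/-- The third vertex of a triangle with a given side. -/
theorem IsTri.third (hT : IsTri T) {t : Finset Pt} (ht : t ∈ T) {x y : Pt} (hxy : x ≠ y)
    (h : ({x, y} : Finset Pt) ⊆ t) : ∃ w, t = {x, y, w} ∧ det x y w ≠ 0 := by
  have h3 := hT.card ht
  have h2 : ({x, y} : Finset Pt).card = 2 := Finset.card_pair hxy
  have h1 : (t \ {x, y}).card = 1 := by
    have := Finset.card_sdiff_add_card_eq_card h
    omega
  obtain ⟨w, hw⟩ := Finset.card_eq_one.1 h1
  have htw : t = {x, y, w} := by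
    rw [← Finset.sdiff_union_of_subset h, hw]
    ext z
    simp only [Finset.mem_union, Finset.mem_insert, Finset.mem_singleton]
    tauto
  refine ⟨w, htw, hT.det_ne ?_⟩
  rw [← htw]
  exact ht

/-- Every triangle can be written with a given first vertex and positive orientation. -/
theorem IsTri.at_vertex (hT : IsTri T) {t : Finset Pt} (ht : t ∈ T) {v : Pt} (h : v ∈ t) :
    ∃ p q, t = {v, p, q} ∧ 0 < det v p q := by
  obtain ⟨a, b, c, habc, hpos⟩ := hT.tri _ ht
  rw [habc] at h
  simp only [Finset.mem_insert, Finset.mem_singleton] at h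
  rcases h with rfl | rfl | rfl
  · exact ⟨b, c, habc, hpos⟩
  · refine ⟨c, a, ?_, by rw [det_rot]; exact hpos⟩
    rw [habc]
    ext z
    simp only [Finset.mem_insert, Finset.mem_singleton]
    tauto
  · refine ⟨a, b, ?_, by rw [det_rot']; exact hpos⟩
    rw [habc]
    ext z
    simp only [Finset.mem_insert, Finset.mem_singleton]
    tauto

/-- The main case of `IsTri.opp`. -/
private lemma IsTri.opp_aux (hT : IsTri T) {x y w w' : Pt} (h1 : ({x, y, w} : Finset Pt) ∈ T)
    (h2 : ({x, y, w'} : Finset Pt) ∈ T) (hne : w ≠ w') (hD : 0 < det x y w)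
    (hD' : 0 < det x y w') : False := by
  set P := det y w' w with hP
  set Q := det w' x w with hQ
  set D := det x y w with hDd
  set D' := det x y w' with hDd'
  have hden : 0 < D' / 2 + 1 + |P| + |Q| := by positivity
  set e := (D' / 2) / (D' / 2 + 1 + |P| + |Q|) with he
  have he0 : 0 < e := by positivity
  have hmul : e * (D' / 2 + 1 + |P| + |Q|) = D' / 2 := by
    rw [he]
    field_simp
  have hP1 : -|P| ≤ P := neg_abs_le P
  have hQ1 : -|Q| ≤ Q := neg_abs_le Q
  have hP0 : 0 ≤ |P| := abs_nonneg P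
  have hQ0 : 0 ≤ |Q| := abs_nonneg Q
  have heP : 0 ≤ e * |P| := by positivity
  have heQ : 0 ≤ e * |Q| := by positivity
  have heP1 : e * (-|P|) ≤ e * P := mul_le_mul_of_nonneg_left hP1 he0.le
  have heQ1 : e * (-|Q|) ≤ e * Q := mul_le_mul_of_nonneg_left hQ1 he0.le
  have he1 : e ≤ 1 := by
    rw [he, div_le_one hden]
    linarith
  set q : Pt := ((1 - e) / 2) • x + ((1 - e) / 2) • y + e • w with hq
  have hsum : (1 - e) / 2 + (1 - e) / 2 + e = 1 := by ring
  have hq1 : q ∈ hull {x, y, w} := by
    rw [mem_hull3_comb]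
    exact ⟨(1 - e) / 2, (1 - e) / 2, e, by linarith, by linarith, he0.le, hsum, rfl⟩
  have hxyq : det x y q = e * D := by
    rw [hq, det_comb3 _ _ _ _ _ _ _ _ hsum, det_aba, det_abb, ← hDd]
    ring
  have hq2 : q ∈ hull {x, y, w'} := by
    rw [mem_hull3 hD']
    refine ⟨?_, ?_, ?_⟩
    · rw [hxyq]
      positivity
    · rw [hq, det_comb3 _ _ _ _ _ _ _ _ hsum, det_rot, ← hDd', det_aba, ← hP]
      nlinarith
    · rw [hq, det_comb3 _ _ _ _ _ _ _ _ hsum, det_abb, det_rot', ← hDd', ← hQ]
      nlinarith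
  have hq3 := hT.glue _ h1 _ h2 ⟨hq1, hq2⟩
  have hsub : ({x, y, w} : Finset Pt) ∩ {x, y, w'} ⊆ {x, y} := by
    intro z hz
    simp only [Finset.mem_inter, Finset.mem_insert, Finset.mem_singleton] at hz ⊢
    obtain ⟨hz1, hz2⟩ := hz
    rcases hz1 with h | h | h
    · exact Or.inl h
    · exact Or.inr h
    · rcases hz2 with h' | h' | h'
      · exact Or.inl h'
      · exact Or.inr h'
      · exact absurd (h.symm.trans h') hne
  have hq4 := hull_mono hsub hq3
  rw [mem_hull2] at hq4
  have hq5 := det_of_mem_segment hq4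
  rw [hxyq] at hq5
  have : 0 < e * D := by positivity
  linarith

/-- Two different triangles with a common side lie on different sides of it. -/
theorem IsTri.opp (hT : IsTri T) {x y w w' : Pt} (h1 : ({x, y, w} : Finset Pt) ∈ T)
    (h2 : ({x, y, w'} : Finset Pt) ∈ T) (hne : w ≠ w') : det x y w * det x y w' < 0 := by
  have n1 := hT.det_ne h1
  have n2 := hT.det_ne h2
  rcases lt_or_gt_of_ne n1 with a1 | a1 <;> rcases lt_or_gt_of_ne n2 with a2 | a2
  · exfalso
    refine hT.opp_aux (x := y) (y := x) (w := w) (w' := w') ?_ ?_ hne ?_ ?_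
    · rw [Finset.insert_comm]
      exact h1
    · rw [Finset.insert_comm]
      exact h2
    · rw [det_swap]
      linarith
    · rw [det_swap]
      linarith
  · exact mul_neg_of_neg_of_pos a1 a2
  · exact mul_neg_of_pos_of_neg a1 a2
  · exact (hT.opp_aux h1 h2 hne a1 a2).elim

/-- A side is contained in at most two triangles. -/
theorem IsTri.side_two (hT : IsTri T) {e t1 t2 t3 : Finset Pt} (he : e.card = 2) (h1 : t1 ∈ T)
    (h2 : t2 ∈ T) (h3 : t3 ∈ T) (e1 : e ⊆ t1) (e2 : e ⊆ t2) (e3 : e ⊆ t3) (hne : t1 ≠ t2) :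
    t3 = t1 ∨ t3 = t2 := by
  obtain ⟨x, y, hxy, rfl⟩ := Finset.card_eq_two.1 he
  obtain ⟨w1, rfl, -⟩ := hT.third h1 hxy e1
  obtain ⟨w2, rfl, -⟩ := hT.third h2 hxy e2
  obtain ⟨w3, rfl, -⟩ := hT.third h3 hxy e3
  by_contra hcon
  push Not at hcon
  obtain ⟨c1, c2⟩ := hcon
  have n12 : w1 ≠ w2 := by
    rintro rfl
    exact hne rfl
  have n31 : w3 ≠ w1 := by
    rintro rfl
    exact c1 rfl
  have n32 : w3 ≠ w2 := by
    rintro rfl
    exact c2 rfl
  have p12 := hT.opp h1 h2 n12
  have p31 := hT.opp h3 h1 n31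
  have p32 := hT.opp h3 h2 n32
  have q1 := mul_pos_of_neg_of_neg p31 p32
  have q2 : 0 ≤ det x y w3 * det x y w3 := mul_self_nonneg _
  have q3 : det x y w3 * det x y w1 * (det x y w3 * det x y w2) =
      (det x y w3 * det x y w3) * (det x y w1 * det x y w2) := by ring
  have q4 : (det x y w3 * det x y w3) * (det x y w1 * det x y w2) ≤ 0 :=
    mul_nonpos_of_nonneg_of_nonpos q2 p12.le
  linarith

end Pool.Agent.Helper69.AGF

end
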