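import Pool.Agent.Helper69.AGF.Star

/-!
AGF module Between: two neighbours u, u' of v with angle less than pi and no neighbour strictly between span a triangle.

PROOF HINTS (between).
m = midpoint of u and u' is in the region (convexity; u, u' are vertices, hence in the region), v in verts T, so star_dir gives
t in T, v in t, e > 0, v + e (m - v) in hull t; at_vertex: t = {v,p,q}, 0 < det v p q. From mem_hull3 for v + e (m-v):
det v p m >= 0 and det v m q >= 0 (det q v m = det v m q by det_rot). Note det v u m = (det v u u')/2 > 0 and
det v m u' > 0. {v,p}, {v,q}, {v,u}, {v,u'} are sides.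
Case det v p m = 0: then p is on the ray v m (det v m q >= 0 and det v p q > 0 exclude the opposite ray: m - v = s (p - v) with
s > 0, or m = v which is impossible), so det v u p > 0 and det v p u' > 0: contradiction to hno. Case det v m q = 0 similarly
with q. Otherwise det v p m > 0 and det v m q > 0. Claim: p = u. [not_in_cone for u: not (det v p u > 0 and det v u q > 0);
hno for p: not (det v u p > 0 and det v p u' > 0).] det v u p < 0 means det v p u > 0; then det v u q <= 0, but det v u m > 0 and
det v m q > 0 and det v p u > 0, det v p m > 0: write m in the basis (u,q)... the clean way: the identity (Plucker)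
 det v a b * det v c d - det v a c * det v b d + det v a d * det v b c = 0 for all a b c d (put v at the origin, ring), applied to
 (a,b,c,d) = (p,u,m,q): det v p u * det v m q - det v p m * det v u q + det v p q * det v u m = 0: all three terms would be
 nonnegative with a positive first: contradiction. det v u p > 0: then det v p u' <= 0 i.e. det v u' p >= 0, and Plucker with
 (u, p, m, u'): det v u p * det v m u' - det v u m * det v p u' + det v u u' * det v p m = 0: all nonnegative, first positive:
 contradiction. So det v u p = 0, and p - v = c (u - v) with c > 0 (c < 0 contradicts det v p m > 0 and det v u m > 0;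
 c = 0 means p = v). same_dir: u = p. Symmetric: q = u'.
-/

noncomputable section

namespace Pool.Agent.Helper69.AGF

variable {T : Finset (Finset Pt)}

lemma plucker (v a b c d : Pt) :
    det v a b * det v c d - det v a c * det v b d + det v a d * det v b c = 0 := by
  unfold det; ring

private lemma dir_of_det {v a b x : Pt} (h0 : det v a b = 0) (hx : det v a x ≠ 0) :
    b - v = (det v b x / det v a x) • (a - v) := by
  have e1 : (b.1 - v.1) * det v a x = det v b x * (a.1 - v.1) + det v a b * (x.1 - v.1) := by
    unfold det; ring
  have e2 : (b.2 - v.2) * det v a x = det v b x * (a.2 - v.2) + det v a b * (x.2 - v.2) := by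
    unfold det; ring
  rw [h0, zero_mul, add_zero] at e1 e2
  apply Prod.ext
  · simp only [Prod.fst_sub, Prod.smul_fst, smul_eq_mul]
    field_simp
    linarith
  · simp only [Prod.snd_sub, Prod.smul_snd, smul_eq_mul]
    field_simp
    linarith

private lemma det_ray (a b v m : Pt) (c : ℝ) (h : b - v = c • (m - v)) :
    det v a b = c * det v a m ∧ det v b a = c * det v m a := by
  have h1 : b.1 - v.1 = c * (m.1 - v.1) := by
    have := congrArg Prod.fst h
    simpa using this
  have h2 : b.2 - v.2 = c * (m.2 - v.2) := by
    have := congrArg Prod.snd h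
    simpa using this
  unfold det
  rw [h1, h2]
  constructor <;> ring

private lemma side_of_tri {v p q : Pt} (ht : ({v, p, q} : Finset Pt) ∈ T) (hd : det v p q ≠ 0) :
    ({v, p} : Finset Pt) ∈ sides T ∧ ({v, q} : Finset Pt) ∈ sides T := by
  have hvp : v ≠ p := by
    rintro rfl
    exact hd (by simp)
  have hvq : v ≠ q := by
    rintro rfl
    exact hd (by simp)
  constructor
  · rw [mem_sides]
    refine ⟨Finset.card_pair hvp, _, ht, ?_⟩
    intro x hx
    simp only [Finset.mem_insert, Finset.mem_singleton] at hx ⊢
    tauto
  · rw [mem_sides]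
    refine ⟨Finset.card_pair hvq, _, ht, ?_⟩
    intro x hx
    simp only [Finset.mem_insert, Finset.mem_singleton] at hx ⊢
    tauto

theorem IsTri.between (hT : IsTri T) (hconv : Convex ℝ (region T)) {v u u' : Pt}
    (hu : ({v, u} : Finset Pt) ∈ sides T) (hu' : ({v, u'} : Finset Pt) ∈ sides T)
    (hd : 0 < det v u u')
    (hno : ∀ w, ({v, w} : Finset Pt) ∈ sides T → ¬ (0 < det v u w ∧ 0 < det v w u')) :
    ({v, u, u'} : Finset Pt) ∈ T := by
  obtain ⟨-, t1, ht1, hs1⟩ := mem_sides.1 hu
  obtain ⟨-, t2, ht2, hs2⟩ := mem_sides.1 hu'
  have hv1 : v ∈ t1 := hs1 (by simp)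
  have hu1 : u ∈ t1 := hs1 (by simp)
  have hu2 : u' ∈ t2 := hs2 (by simp)
  have hvv : v ∈ verts T := mem_verts.2 ⟨t1, ht1, hv1⟩
  have rv : v ∈ region T := mem_region.2 ⟨t1, ht1, subset_hull hv1⟩
  have ru : u ∈ region T := mem_region.2 ⟨t1, ht1, subset_hull hu1⟩
  have ru' : u' ∈ region T := mem_region.2 ⟨t2, ht2, subset_hull hu2⟩
  obtain ⟨m, hm⟩ : ∃ m : Pt, m = (1 / 2 : ℝ) • u + (1 / 2 : ℝ) • u' := ⟨_, rfl⟩
  have rm : m ∈ region T := by
    rw [hm]
    exact hconv ru ru' (by norm_num) (by norm_num) (by norm_num)
  have d1 : 0 < det v u m := by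
    rw [hm, det_comb _ _ _ _ _ _ (by norm_num)]
    simp only [det_abb, mul_zero, zero_add]
    linarith
  have d2 : 0 < det v m u' := by
    have : det v u' m = (1 / 2) * det v u' u + (1 / 2) * det v u' u' := by
      rw [hm, det_comb _ _ _ _ _ _ (by norm_num)]
    rw [det_abb, mul_zero, add_zero] at this
    have e1 : det v m u' = - det v u' m := det_swap' v u' m
    have e2 : det v u' u = - det v u u' := det_swap' v u u'
    rw [e1, this, e2]
    linarith
  obtain ⟨t, ht, hvt, ε, hε, -, hmem⟩ := hT.star_dir hvv (hconv.segment_subset rv rm)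
  obtain ⟨p, q, rfl, hpq⟩ := hT.at_vertex ht hvt
  obtain ⟨hsp, hsq⟩ := side_of_tri ht hpq.ne'
  rw [mem_hull3 hpq] at hmem
  obtain ⟨m1, -, m3⟩ := hmem
  have f1 : det v p (v + ε • (m - v)) = ε * det v p m := by
    simp only [det, Prod.fst_add, Prod.smul_fst, smul_eq_mul, Prod.snd_add, Prod.smul_snd,
      Prod.fst_sub, Prod.snd_sub]
    ring
  have f3 : det q v (v + ε • (m - v)) = ε * det v m q := by
    simp only [det, Prod.fst_add, Prod.smul_fst, smul_eq_mul, Prod.snd_add, Prod.smul_snd,
      Prod.fst_sub, Prod.snd_sub]
    ring
  rw [f1] at m1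
  rw [f3] at m3
  have g1 : 0 ≤ det v p m := nonneg_of_mul_nonneg_right m1 hε
  have g3 : 0 ≤ det v m q := nonneg_of_mul_nonneg_right m3 hε
  have P1 := plucker v p u m q
  -- the two boundary cases
  have g1' : 0 < det v p m := by
    rcases g1.lt_or_eq with h | h
    · exact h
    · exfalso
      have h' : det v p m = 0 := h.symm
      have hq : 0 < det v m q := by
        rcases g3.lt_or_eq with h3 | h3
        · exact h3
        · exfalso
          rw [← h3, h'] at P1
          have := mul_pos hpq d1
          linarith
      have hmp : det v m p = 0 := by rw [det_swap' v p m, h', neg_zero]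
      have hdir := dir_of_det (x := q) hmp hq.ne'
      have hc : 0 < det v p q / det v m q := div_pos hpq hq
      obtain ⟨r1, -⟩ := det_ray u p v m _ hdir
      obtain ⟨-, r2⟩ := det_ray u' p v m _ hdir
      exact hno p hsp ⟨by rw [r1]; exact mul_pos hc d1, by rw [r2]; exact mul_pos hc d2⟩
  have g3' : 0 < det v m q := by
    rcases g3.lt_or_eq with h | h
    · exact h
    · exfalso
      have h' : det v m q = 0 := h.symm
      have hmp : det v m p ≠ 0 := by rw [det_swap' v p m]; linarith
      have hdir := dir_of_det (x := p) h' hmp
      have hc : 0 < det v q p / det v m p := by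
        rw [det_swap' v p q, det_swap' v p m, neg_div_neg_eq]
        exact div_pos hpq g1'
      obtain ⟨r1, -⟩ := det_ray u q v m _ hdir
      obtain ⟨-, r2⟩ := det_ray u' q v m _ hdir
      exact hno q hsq ⟨by rw [r1]; exact mul_pos hc d1, by rw [r2]; exact mul_pos hc d2⟩
  have hup : u = p := by
    have n1 := hT.not_in_cone ht hpq hu
    have n2 := hno p hsp
    rcases lt_trichotomy (det v u p) 0 with h | h | h
    · exfalso
      have h1 : 0 < det v p u := by rw [det_swap' v u p]; linarith
      have h2 : det v u q ≤ 0 := by
        by_contra hc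
        exact n1 ⟨h1, not_le.1 hc⟩
      have a1 := mul_pos h1 g3'
      have a2 := mul_nonpos_of_nonneg_of_nonpos g1'.le h2
      have a3 := mul_pos hpq d1
      linarith
    · have hdir := dir_of_det (x := m) h d1.ne'
      exact hT.same_dir hu hsp (div_pos g1' d1) hdir
    · exfalso
      have h2 : det v p u' ≤ 0 := by
        by_contra hc
        exact n2 ⟨h, not_le.1 hc⟩
      have P2 := plucker v u p m u'
      have a1 := mul_pos h d2
      have a2 := mul_nonpos_of_nonneg_of_nonpos d1.le h2
      have a3 := mul_pos hd g1'
      linarith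
  have huq : u' = q := by
    have n1 := hT.not_in_cone ht hpq hu'
    have n2 := hno q hsq
    rcases lt_trichotomy (det v u' q) 0 with h | h | h
    · exfalso
      have h1 : 0 < det v q u' := by rw [det_swap' v u' q]; linarith
      have h2 : det v u q ≤ 0 := by
        by_contra hc
        exact n2 ⟨not_le.1 hc, h1⟩
      have P2 := plucker v u m q u'
      have a1 := mul_pos d1 h1
      have a2 := mul_nonpos_of_nonpos_of_nonneg h2 d2.le
      have a3 := mul_pos hd g3'
      linarith
    · have hne : det v u' m ≠ 0 := by rw [det_swap' v m u']; linarith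
      have hdir := dir_of_det (x := m) h hne
      have hc : 0 < det v q m / det v u' m := by
        rw [det_swap' v m q, det_swap' v m u', neg_div_neg_eq]
        exact div_pos g3' d2
      exact hT.same_dir hu' hsq hc hdir
    · exfalso
      have h2 : det v p u' ≤ 0 := by
        by_contra hc
        exact n1 ⟨not_le.1 hc, h⟩
      have P2 := plucker v p m u' q
      have a1 := mul_pos g1' h
      have a2 := mul_nonpos_of_nonpos_of_nonneg h2 g3'.le
      have a3 := mul_pos hpq d2
      linarith
  rw [hup, huq]
  exact ht

end Pool.Agent.Helper69.AGF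

end
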