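import Pool.Agent.Helper69.AGF.Between

/-!
AGF module BetweenInd: induction principle for pairs of neighbours.

PROOF HINTS. Strong induction on the number of w in (verts T) with {v,w} in sides T, 0 < det v u w, 0 < det v w u'
(a Finset.filter of verts T; if {v,w} in sides T then w in verts T). If there is none, IsTri.between gives {v,u,u'} in T and hbase
applies. Otherwise choose such a w; the sets for (u,w) and for (w,u') are proper subsets (w itself is missing because det v w w = 0;
inclusion: if 0 < det v u z and 0 < det v z w and 0 < det v u w, 0 < det v w u', 0 < det v u u' then 0 < det v z u': Plucker with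
(u,z,w,u'): det v u z * det v w u' - det v u w * det v z u' + det v u u' * det v z w = 0, so det v u w * det v z u' > 0.
Similarly for (w,u')). Then htrans.
-/

noncomputable section

open scoped Classical

namespace Pool.Agent.Helper69.AGF

variable {T : Finset (Finset Pt)}

/-- Induction principle: a relation between neighbours of v which holds for the two outer vertices of every
triangle at v and is transitive along intermediate neighbours holds for all pairs with angle less than pi. -/
theorem IsTri.between_induction (hT : IsTri T) (hconv : Convex ℝ (region T)) {v : Pt}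
    {R : Pt → Pt → Prop} (hbase : ∀ u u', ({v, u, u'} : Finset Pt) ∈ T → 0 < det v u u' → R u u')
    (htrans : ∀ u w u', ({v, u} : Finset Pt) ∈ sides T → ({v, w} : Finset Pt) ∈ sides T →
      ({v, u'} : Finset Pt) ∈ sides T → 0 < det v u w → 0 < det v w u' → 0 < det v u u' →
      R u w → R w u' → R u u')
    {u u' : Pt} (hu : ({v, u} : Finset Pt) ∈ sides T) (hu' : ({v, u'} : Finset Pt) ∈ sides T)
    (hd : 0 < det v u u') : R u u' := by
  have hvert : ∀ w, ({v, w} : Finset Pt) ∈ sides T → w ∈ verts T := by
    intro w hw
    obtain ⟨-, t, ht, hs⟩ := mem_sides.1 hw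
    exact mem_verts.2 ⟨t, ht, hs (by simp)⟩
  obtain ⟨n, hn⟩ : ∃ n : ℕ, ((verts T).filter (fun w => ({v, w} : Finset Pt) ∈ sides T ∧
      0 < det v u w ∧ 0 < det v w u')).card = n := ⟨_, rfl⟩
  induction n using Nat.strong_induction_on generalizing u u' with
  | _ n ih =>
    by_cases hex : ∃ w, ({v, w} : Finset Pt) ∈ sides T ∧ 0 < det v u w ∧ 0 < det v w u'
    · obtain ⟨w, hw, h1, h2⟩ := hex
      have hA : ((verts T).filter (fun z => ({v, z} : Finset Pt) ∈ sides T ∧
          0 < det v u z ∧ 0 < det v z w)).card < n := by
        rw [← hn]
        apply Finset.card_lt_card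
        rw [Finset.ssubset_iff_of_subset]
        · refine ⟨w, Finset.mem_filter.2 ⟨hvert w hw, hw, h1, h2⟩, ?_⟩
          intro hcon
          have := (Finset.mem_filter.1 hcon).2.2.2
          simp at this
        · intro z hz
          obtain ⟨z1, z2, z3, z4⟩ := Finset.mem_filter.1 hz
          refine Finset.mem_filter.2 ⟨z1, z2, z3, ?_⟩
          have P := plucker v u z w u'
          have a1 := mul_pos z3 h2
          have a2 := mul_pos hd z4
          have a3 : 0 < det v u w * det v z u' := by linarith
          exact (mul_pos_iff_of_pos_left h1).1 a3
      have hB : ((verts T).filter (fun z => ({v, z} : Finset Pt) ∈ sides T ∧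
          0 < det v w z ∧ 0 < det v z u')).card < n := by
        rw [← hn]
        apply Finset.card_lt_card
        rw [Finset.ssubset_iff_of_subset]
        · refine ⟨w, Finset.mem_filter.2 ⟨hvert w hw, hw, h1, h2⟩, ?_⟩
          intro hcon
          have := (Finset.mem_filter.1 hcon).2.2.1
          simp at this
        · intro z hz
          obtain ⟨z1, z2, z3, z4⟩ := Finset.mem_filter.1 hz
          refine Finset.mem_filter.2 ⟨z1, z2, ?_, z4⟩
          have P := plucker v u w z u'
          have a1 := mul_pos h1 z4
          have a2 := mul_pos hd z3
          have a3 : 0 < det v u z * det v w u' := by linarith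
          exact (mul_pos_iff_of_pos_right h2).1 a3
      exact htrans u w u' hu hw hu' h1 h2 hd (ih _ hA hu hw h1 rfl) (ih _ hB hw hu' h2 rfl)
    · push Not at hex
      exact hbase u u' (hT.between hconv hu hu' hd
        (fun w hw h => absurd h.2 (not_lt.2 (hex w hw h.1)))) hd

end Pool.Agent.Helper69.AGF

end
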