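import Mathlib

/-!
Project AGF (geometric foundation of project AG, MP_586e8d_co, Shermer's conjecture).
Plane triangulations as finite sets of triples of points; simple polygons; polygons with holes.
-/

noncomputable section

namespace Pool.Agent.Helper69.AGF

/-- Points of the plane. -/
abbrev Pt := ℝ × ℝ

/-- Orientation determinant of three points (twice the signed area). -/
def det (a b c : Pt) : ℝ := (b.1 - a.1) * (c.2 - a.2) - (b.2 - a.2) * (c.1 - a.1)

/-- The convex hull of a finite set of points. -/
def hull (t : Finset Pt) : Set Pt := convexHull ℝ (t : Set Pt)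

/-- A finite family of non degenerate triangles, any two of which meet exactly in the hull of their
common vertices (an edge to edge triangulation of its region). -/
structure IsTri (T : Finset (Finset Pt)) : Prop where
  tri : ∀ t ∈ T, ∃ a b c : Pt, t = {a, b, c} ∧ 0 < det a b c
  glue : ∀ t ∈ T, ∀ t' ∈ T, hull t ∩ hull t' ⊆ hull (t ∩ t')

/-- The region covered by the triangles. -/
def region (T : Finset (Finset Pt)) : Set Pt := ⋃ t ∈ T, hull t

/-- The vertices. -/
def verts (T : Finset (Finset Pt)) : Finset Pt := T.biUnion id

/-- The sides (two element subsets of the triangles). -/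
def sides (T : Finset (Finset Pt)) : Finset (Finset Pt) := T.biUnion (fun t => t.powersetCard 2)

/-- The result of exchanging the diagonal x y of the quadrilateral x w' y w for w w'. -/
def flipTri (T : Finset (Finset Pt)) (x y w w' : Pt) : Finset (Finset Pt) :=
  (T \ {{x, y, w}, {x, y, w'}}) ∪ {{x, w, w'}, {y, w, w'}}

/-- The side p q crosses the segment a b (both at interior points). -/
def Crosses (a b : Pt) (e : Finset Pt) : Prop :=
  ∃ p q : Pt, e = {p, q} ∧ det a b p < 0 ∧ 0 < det a b q ∧ det p q a * det p q b < 0

/-- Two triangles of T are adjacent across a side which satisfies a given condition. -/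
def Adj (T : Finset (Finset Pt)) (ok : Finset Pt → Prop) (t t' : Finset Pt) : Prop :=
  t ∈ T ∧ t' ∈ T ∧ t ≠ t' ∧ ∃ e : Finset Pt, e.card = 2 ∧ e ⊆ t ∧ e ⊆ t' ∧ ok e

/-- A simple (closed) polygon with m vertices v 0, ..., v (m-1) in cyclic order: the vertices are
distinct and two different edges meet at most in a common end point. -/
structure SimplePoly where
  m : ℕ
  three_le : 3 ≤ m
  v : ZMod m → Pt
  inj : Function.Injective v
  simple : ∀ i j : ZMod m, i ≠ j →
    ∀ p ∈ segment ℝ (v i) (v (i + 1)) ∩ segment ℝ (v j) (v (j + 1)),
      (p = v i ∨ p = v (i + 1)) ∧ (p = v j ∨ p = v (j + 1))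

namespace SimplePoly

instance (g : SimplePoly) : NeZero g.m := ⟨by have := g.three_le; omega⟩

/-- The polygonal curve. -/
def curve (g : SimplePoly) : Set Pt := ⋃ i : ZMod g.m, segment ℝ (g.v i) (g.v (i + 1))

/-- The points of the bounded components of the complement of the curve. -/
def inside (g : SimplePoly) : Set Pt :=
  {p | p ∉ g.curve ∧ Bornology.IsBounded (connectedComponentIn (g.curve)ᶜ p)}

/-- The closed region bounded by the simple polygon. -/
def closedRegion (g : SimplePoly) : Set Pt := g.curve ∪ g.inside

/-- The edges as two element sets. -/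
def edges (g : SimplePoly) : Finset (Finset Pt) :=
  Finset.univ.image (fun i : ZMod g.m => ({g.v i, g.v (i + 1)} : Finset Pt))

/-- The vertices. -/
def vertices (g : SimplePoly) : Finset Pt := Finset.univ.image g.v

end SimplePoly

/-- A polygon with holes: a simple polygon (outer boundary) and h simple polygons whose closed regions are
pairwise disjoint and contained in the interior of the closed region of the outer one. -/
structure HoledPoly where
  h : ℕ
  outer : SimplePoly
  hole : Fin h → SimplePoly
  hole_sub : ∀ i, (hole i).closedRegion ⊆ interior outer.closedRegion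
  hole_disj : ∀ i j, i ≠ j → Disjoint (hole i).closedRegion (hole j).closedRegion

namespace HoledPoly

/-- The polygon with holes as a set of points. -/
def carrier (P : HoledPoly) : Set Pt :=
  P.outer.closedRegion \ ⋃ i, interior (P.hole i).closedRegion

/-- The number of vertices (of the outer polygon and of all holes). -/
def n (P : HoledPoly) : ℕ := P.outer.m + ∑ i, (P.hole i).m

/-- The set of vertices. -/
def vertices (P : HoledPoly) : Finset Pt :=
  P.outer.vertices ∪ Finset.univ.biUnion (fun i => (P.hole i).vertices)

/-- The set of edges. -/
def edges (P : HoledPoly) : Finset (Finset Pt) :=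
  P.outer.edges ∪ Finset.univ.biUnion (fun i => (P.hole i).edges)

end HoledPoly

/-- x sees y in P. -/
def Sees (P : Set Pt) (x y : Pt) : Prop := segment ℝ x y ⊆ P

end Pool.Agent.Helper69.AGF

end
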