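import Pool.Agent.Helper69.AGF.BetweenInd

/-!
AGF module FanConn: connectedness of the fan of triangles around a vertex.

PROOF HINTS. Let R u u' := for all t t' in T with {v,u} subset t and {v,u'} subset t':
ReflTransGen (Adj T (v in .)) t t'. (0) For one neighbour u: any two triangles t, t' containing {v,u} are equal or adjacent
(Adj with e = {v,u}, card 2). (1) hbase: {v,u,u'} =: s in T contains both {v,u} and {v,u'}: t - s - t' by (0). (2) htrans: {v,w} is
contained in some triangle s in T: t ~ s ~ t'. So between_induction gives R u u' whenever det v u u' > 0, by symmetry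
(adj_rel_symm) whenever det v u u' <> 0. (3) Given t, t' at v: t = {v,p,q}, t' = {v,p',q'} (at_vertex), 0 < det v p q,
0 < det v p' q'. If det v p p' <> 0: done by R. If det v p q' <> 0: done. Otherwise det v p p' = 0 and det v p q' = 0 with p <> v: then
p', q' are both on the line v p and det v p' q' = 0: contradiction (Plucker (p,p',q',x) or coordinates: from det v p p' = 0 and
det v p q' = 0, p <> v follows det v p' q' = 0).
-/

noncomputable section

namespace Pool.Agent.Helper69.AGF

variable {T : Finset (Finset Pt)}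

lemma Adj.symm {ok : Finset Pt → Prop} {t t' : Finset Pt} (h : Adj T ok t t') : Adj T ok t' t := by
  obtain ⟨h1, h2, h3, e, h4, h5, h6, h7⟩ := h
  exact ⟨h2, h1, h3.symm, e, h4, h6, h5, h7⟩

lemma adj_rel_symm {ok : Finset Pt → Prop} {t t' : Finset Pt}
    (h : Relation.ReflTransGen (Adj T ok) t t') : Relation.ReflTransGen (Adj T ok) t' t := by
  induction h with
  | refl => exact Relation.ReflTransGen.refl
  | tail _ h2 ih => exact Relation.ReflTransGen.head h2.symm ih

lemma adj_rel_mono {ok ok' : Finset Pt → Prop} (h : ∀ e, ok e → ok' e) {t t' : Finset Pt}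
    (h1 : Relation.ReflTransGen (Adj T ok) t t') : Relation.ReflTransGen (Adj T ok') t t' := by
  induction h1 with
  | refl => exact Relation.ReflTransGen.refl
  | tail _ h2 ih =>
    obtain ⟨h1, h2, h3, e, h4, h5, h6, h7⟩ := h2
    exact Relation.ReflTransGen.tail ih ⟨h1, h2, h3, e, h4, h5, h6, h _ h7⟩

private lemma fan_step {v u : Pt} (hvu : v ≠ u) {t t' : Finset Pt} (ht : t ∈ T) (ht' : t' ∈ T)
    (h : ({v, u} : Finset Pt) ⊆ t) (h' : ({v, u} : Finset Pt) ⊆ t') :
    Relation.ReflTransGen (Adj T (fun e => v ∈ e)) t t' := by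
  by_cases he : t = t'
  · subst he; exact Relation.ReflTransGen.refl
  · exact Relation.ReflTransGen.single
      ⟨ht, ht', he, {v, u}, Finset.card_pair hvu, h, h', by simp⟩

private lemma det_zero_of_zero {v p p' q' : Pt} (hp : p ≠ v) (h1 : det v p p' = 0)
    (h2 : det v p q' = 0) : det v p' q' = 0 := by
  by_contra hcon
  apply hp
  unfold det at h1 h2 hcon
  have e1 : (p.1 - v.1) * ((p'.1 - v.1) * (q'.2 - v.2) - (p'.2 - v.2) * (q'.1 - v.1)) = 0 := by
    linear_combination (p'.1 - v.1) * h2 - (q'.1 - v.1) * h1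
  have e2 : (p.2 - v.2) * ((p'.1 - v.1) * (q'.2 - v.2) - (p'.2 - v.2) * (q'.1 - v.1)) = 0 := by
    linear_combination (p'.2 - v.2) * h2 - (q'.2 - v.2) * h1
  have f1 := (mul_eq_zero.mp e1).resolve_right hcon
  have f2 := (mul_eq_zero.mp e2).resolve_right hcon
  exact Prod.ext (by linarith) (by linarith)

/-- The triangles at v are connected through sides at v. -/
theorem IsTri.fan_conn (hT : IsTri T) (hconv : Convex ℝ (region T)) {v : Pt} {t t' : Finset Pt}
    (ht : t ∈ T) (hvt : v ∈ t) (ht' : t' ∈ T) (hvt' : v ∈ t') :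
    Relation.ReflTransGen (Adj T (fun e => v ∈ e)) t t' := by
  have hne_of_det : ∀ a b : Pt, 0 < det v a b → v ≠ a ∧ v ≠ b := by
    intro a b h
    refine ⟨?_, ?_⟩
    · rintro rfl; simp at h
    · rintro rfl; simp at h
  have hpos : ∀ u u' : Pt, ({v, u} : Finset Pt) ∈ sides T → ({v, u'} : Finset Pt) ∈ sides T →
      0 < det v u u' → ∀ s ∈ T, ∀ s' ∈ T, ({v, u} : Finset Pt) ⊆ s → ({v, u'} : Finset Pt) ⊆ s' →
      Relation.ReflTransGen (Adj T (fun e => v ∈ e)) s s' := by
    intro u u' hu hu' hd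
    refine hT.between_induction hconv
      (R := fun u u' => ∀ s ∈ T, ∀ s' ∈ T, ({v, u} : Finset Pt) ⊆ s → ({v, u'} : Finset Pt) ⊆ s' →
        Relation.ReflTransGen (Adj T (fun e => v ∈ e)) s s') ?_ ?_ hu hu' hd
    · intro a b hab hdab s hs s' hs' h1 h2
      obtain ⟨na, nb⟩ := hne_of_det a b hdab
      refine Relation.ReflTransGen.trans (fan_step na hs hab h1 ?_) (fan_step nb hab hs' ?_ h2)
      · intro x hx
        simp only [Finset.mem_insert, Finset.mem_singleton] at hx ⊢
        tauto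
      · intro x hx
        simp only [Finset.mem_insert, Finset.mem_singleton] at hx ⊢
        tauto
    · intro a w b _ hw _ _ _ _ r1 r2 s hs s' hs' h1 h2
      obtain ⟨_, c, hc, hwc⟩ := mem_sides.mp hw
      exact Relation.ReflTransGen.trans (r1 s hs c hc h1 hwc) (r2 c hc s' hs' hwc h2)
  have hne : ∀ u u' : Pt, ({v, u} : Finset Pt) ∈ sides T → ({v, u'} : Finset Pt) ∈ sides T →
      det v u u' ≠ 0 → ∀ s ∈ T, ∀ s' ∈ T, ({v, u} : Finset Pt) ⊆ s → ({v, u'} : Finset Pt) ⊆ s' →
      Relation.ReflTransGen (Adj T (fun e => v ∈ e)) s s' := by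
    intro u u' hu hu' hd s hs s' hs' h1 h2
    rcases lt_or_gt_of_ne hd with h | h
    · have h' : 0 < det v u' u := by rw [det_swap']; linarith
      exact adj_rel_symm (hpos u' u hu' hu h' s' hs' s hs h2 h1)
    · exact hpos u u' hu hu' h s hs s' hs' h1 h2
  obtain ⟨p, q, hpq, hd⟩ := hT.at_vertex ht hvt
  obtain ⟨p', q', hpq', hd'⟩ := hT.at_vertex ht' hvt'
  obtain ⟨np, _⟩ := hne_of_det p q hd
  obtain ⟨np', nq'⟩ := hne_of_det p' q' hd'
  have sp : ({v, p} : Finset Pt) ⊆ t := by
    rw [hpq]; intro x hx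
    simp only [Finset.mem_insert, Finset.mem_singleton] at hx ⊢
    tauto
  have sp' : ({v, p'} : Finset Pt) ⊆ t' := by
    rw [hpq']; intro x hx
    simp only [Finset.mem_insert, Finset.mem_singleton] at hx ⊢
    tauto
  have sq' : ({v, q'} : Finset Pt) ⊆ t' := by
    rw [hpq']; intro x hx
    simp only [Finset.mem_insert, Finset.mem_singleton] at hx ⊢
    tauto
  have mp : ({v, p} : Finset Pt) ∈ sides T := mem_sides.mpr ⟨Finset.card_pair np, t, ht, sp⟩
  have mp' : ({v, p'} : Finset Pt) ∈ sides T :=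
    mem_sides.mpr ⟨Finset.card_pair np', t', ht', sp'⟩
  have mq' : ({v, q'} : Finset Pt) ∈ sides T :=
    mem_sides.mpr ⟨Finset.card_pair nq', t', ht', sq'⟩
  by_cases h1 : det v p p' = 0
  · by_cases h2 : det v p q' = 0
    · exact absurd (det_zero_of_zero np.symm h1 h2) hd'.ne'
    · exact hne p q' mp mq' h2 t ht t' ht' sp sq'
  · exact hne p p' mp mp' h1 t ht t' ht' sp sp'

end Pool.Agent.Helper69.AGF

end
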