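import Pool.Agent.Helper69.AGF.FanConn

/-!
AGF module Lower: lexicographically lower neighbours; connectedness of the dual graph.

PROOF HINTS. exists_lower: v in region; segment v p is in the region (convexity), star_dir gives t in T, v in t and
v + e (p - v) in hull t with e > 0; at_vertex: t = {v,a,b}. mem_hull3_comb: v + e (p-v) = r v + s a + t b, r+s+t = 1, so
e (p - v) = s (a - v) + t (b - v), s,t >= 0. If neither a nor b is lexicographically smaller than v, then the first coordinates of
a - v and b - v are >= 0 and, if they vanish, the second ones are >= 0; so s (a-v) + t (b-v) has first coordinate >= 0, and if this is 0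
the second is >= 0 (if s (a-v).1 + t (b-v).1 = 0 both terms vanish; each term with (a-v).1 > 0 has s = 0): so it is not
lexicographically negative, but e (p - v) is. Prod.Lex.toLex_lt_toLex (or Prod.Lex.lt_iff) describes the order of toLex.
dual_conn: T is nonempty; let v0 be the lexicographically smallest vertex (Finset.exists_min_image (verts T) toLex). Fix a triangle t0
containing v0. Claim: for every v in verts T and every triangle t containing v, t is connected to t0 (any sides allowed): strong
induction on v along the lexicographic order restricted to the finite set verts T (e.g. on the number of vertices smaller than v, or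
Finset.strongInductionOn / WellFounded on a finite linear order). If v = v0: fan_conn + adj_rel_mono. Otherwise
toLex v0 < toLex v (toLex injective), v0 in region, exists_lower gives u, a triangle s contains {v,u}; t ~ s by fan_conn at v,
s ~ t0 by the induction hypothesis for u.
-/

noncomputable section

namespace Pool.Agent.Helper69.AGF

variable {T : Finset (Finset Pt)}

/-- A vertex which is not the lexicographically smallest point of the region has a lexicographically smaller
neighbour. -/
theorem IsTri.exists_lower (hT : IsTri T) (hconv : Convex ℝ (region T)) {v p : Pt}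
    (hv : v ∈ verts T) (hp : p ∈ region T) (hlow : toLex p < toLex v) :
    ∃ u, ({v, u} : Finset Pt) ∈ sides T ∧ toLex u < toLex v := by
  have hvr : v ∈ region T := by
    obtain ⟨t0, ht0, hvt0⟩ := mem_verts.mp hv
    exact mem_region.mpr ⟨t0, ht0, subset_hull hvt0⟩
  obtain ⟨t, ht, hvt, e, he, _, hmem⟩ := hT.star_dir hv (hconv.segment_subset hvr hp)
  obtain ⟨a, b, rfl, hd⟩ := hT.at_vertex ht hvt
  have hva : v ≠ a := by
    rintro rfl; simp at hd
  have hvb : v ≠ b := by
    rintro rfl; simp at hd
  have hsa : ({v, a} : Finset Pt) ∈ sides T :=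
    mem_sides.mpr ⟨Finset.card_pair hva, _, ht, by
      intro x hx
      simp only [Finset.mem_insert, Finset.mem_singleton] at hx ⊢
      tauto⟩
  have hsb : ({v, b} : Finset Pt) ∈ sides T :=
    mem_sides.mpr ⟨Finset.card_pair hvb, _, ht, by
      intro x hx
      simp only [Finset.mem_insert, Finset.mem_singleton] at hx ⊢
      tauto⟩
  obtain ⟨r, s, q, hr, hs, hq, h1, heq⟩ := mem_hull3_comb.mp hmem
  obtain rfl : r = 1 - s - q := by linarith
  have e1 : e * (p.1 - v.1) = s * (a.1 - v.1) + q * (b.1 - v.1) := by
    have := congrArg Prod.fst heq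
    simp only [Prod.fst_add, Prod.smul_fst, smul_eq_mul, Prod.fst_sub] at this
    linarith
  have e2 : e * (p.2 - v.2) = s * (a.2 - v.2) + q * (b.2 - v.2) := by
    have := congrArg Prod.snd heq
    simp only [Prod.snd_add, Prod.smul_snd, smul_eq_mul, Prod.snd_sub] at this
    linarith
  by_contra hcon
  push Not at hcon
  have ha := hcon a hsa
  have hb := hcon b hsb
  rw [Prod.Lex.toLex_le_toLex] at ha hb
  rw [Prod.Lex.toLex_lt_toLex] at hlow
  have ha1 : 0 ≤ s * (a.1 - v.1) := by
    apply mul_nonneg hs
    rcases ha with h | h
    · linarith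
    · linarith [h.1]
  have hb1 : 0 ≤ q * (b.1 - v.1) := by
    apply mul_nonneg hq
    rcases hb with h | h
    · linarith
    · linarith [h.1]
  rcases hlow with h | ⟨h, h'⟩
  · have : e * (p.1 - v.1) < 0 := mul_neg_of_pos_of_neg he (by linarith)
    linarith
  · rw [h, sub_self, mul_zero] at e1
    have ha0 : s * (a.1 - v.1) = 0 := by linarith
    have hb0 : q * (b.1 - v.1) = 0 := by linarith
    have ha2 : 0 ≤ s * (a.2 - v.2) := by
      rcases mul_eq_zero.mp ha0 with h0 | h0
      · rw [h0, zero_mul]
      · apply mul_nonneg hs
        rcases ha with h | h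
        · linarith
        · linarith [h.2]
    have hb2 : 0 ≤ q * (b.2 - v.2) := by
      rcases mul_eq_zero.mp hb0 with h0 | h0
      · rw [h0, zero_mul]
      · apply mul_nonneg hq
        rcases hb with h | h
        · linarith
        · linarith [h.2]
    have : e * (p.2 - v.2) < 0 := mul_neg_of_pos_of_neg he (by linarith)
    linarith

/-- The dual graph is connected. -/
theorem IsTri.dual_conn (hT : IsTri T) (hconv : Convex ℝ (region T)) {t t' : Finset Pt}
    (ht : t ∈ T) (ht' : t' ∈ T) : Relation.ReflTransGen (Adj T (fun _ => True)) t t' := by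
  classical
  have hne : (verts T).Nonempty := by
    obtain ⟨a, b, c, rfl, _⟩ := hT.tri t ht
    exact ⟨a, mem_verts.mpr ⟨_, ht, by simp⟩⟩
  obtain ⟨v0, hv0, hmin⟩ := Finset.exists_min_image (verts T) (fun v => toLex v) hne
  obtain ⟨t0, ht0, hvt0⟩ := mem_verts.mp hv0
  have hr0 : v0 ∈ region T := mem_region.mpr ⟨t0, ht0, subset_hull hvt0⟩
  have key : ∀ n : ℕ, ∀ v ∈ verts T,
      ((verts T).filter (fun w => toLex w < toLex v)).card = n → ∀ s ∈ T, v ∈ s →
      Relation.ReflTransGen (Adj T (fun _ => True)) s t0 := by
    intro n
    induction n using Nat.strong_induction_on with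
    | _ n ih =>
      intro v hv hcard s hs hvs
      by_cases hvv : v = v0
      · subst hvv
        exact adj_rel_mono (fun _ _ => trivial) (hT.fan_conn hconv hs hvs ht0 hvt0)
      · have hlt : toLex v0 < toLex v := by
          refine lt_of_le_of_ne (hmin v hv) ?_
          intro h
          exact hvv (toLex.injective h).symm
        obtain ⟨u, hu, hul⟩ := hT.exists_lower hconv hv hr0 hlt
        obtain ⟨_, s', hs', hsub⟩ := mem_sides.mp hu
        have hvs' : v ∈ s' := hsub (by simp)
        have hus' : u ∈ s' := hsub (by simp)
        have huv : u ∈ verts T := mem_verts.mpr ⟨s', hs', hus'⟩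
        have h1 : Relation.ReflTransGen (Adj T (fun _ => True)) s s' :=
          adj_rel_mono (fun _ _ => trivial) (hT.fan_conn hconv hs hvs hs' hvs')
        have h2 : Relation.ReflTransGen (Adj T (fun _ => True)) s' t0 := by
          refine ih _ ?_ u huv rfl s' hs' hus'
          rw [← hcard]
          apply Finset.card_lt_card
          refine ⟨?_, ?_⟩
          · intro w hw
            rw [Finset.mem_filter] at hw ⊢
            exact ⟨hw.1, hw.2.trans hul⟩
          · intro hcon
            have := hcon (Finset.mem_filter.mpr ⟨huv, hul⟩)
            rw [Finset.mem_filter] at this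
            exact lt_irrefl _ this.2
        exact h1.trans h2
  have hall : ∀ s ∈ T, Relation.ReflTransGen (Adj T (fun _ => True)) s t0 := by
    intro s hs
    obtain ⟨a, b, c, rfl, _⟩ := hT.tri s hs
    exact key _ a (mem_verts.mpr ⟨_, hs, by simp⟩) rfl _ hs (by simp)
  exact (hall t ht).trans (adj_rel_symm (hall t' ht'))

end Pool.Agent.Helper69.AGF

end
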