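import Pool.Agent.Helper69.AGF.Star

/-!
AGF module Part: the part T of a triangulation T' (of a convex region) cut out by a set E of sides.

PROOF HINTS. two_tri: e = {x,y} in sides T, not in E; e in sides T'. x in verts T is an interior point of region T', so there are points p, q of
region T' with det x y p > 0 and det x y q < 0 (p = x + s n, q = x - s n, n = (x.2 - y.2, y.1 - x.1), s small; det x y (x + s n) =
s ((y-x).1^2 + (y-x).2^2)). side_left for (x,y,p) and for (y,x,q) (det y x q = - det x y q > 0) gives triangles {x,y,w}, {y,x,w'} of T' on the two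
sides, hence different. Both contain e; one triangle t of T contains e (e in sides T), so by other both are in T. Uniqueness: side_two.
one_tri: e in E: edge_one gives t in T and t' in T' \ T; a third triangle t'' of T containing e is t or t' (side_two), not t'.
count: 3 * T.card = sum over t in T of card (t.powersetCard 2) = sum over e in sides T of card {t in T | e subset t} (double counting, e.g.
Finset.sum_card_bipartiteAbove_eq_sum_card_bipartiteBelow), which is 2 for e not in E and 1 for e in E; E subset sides T by edge_one.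
-/

noncomputable section

open scoped Classical

namespace Pool.Agent.Helper69.AGF

/-- T is the part of T' cut out by the closed polygons with edge set E. -/
structure Part (T' T E : Finset (Finset Pt)) : Prop where
  tri : IsTri T'
  conv : Convex ℝ (region T')
  sub : T ⊆ T'
  edge_side : E ⊆ sides T'
  edge_one : ∀ e ∈ E, ∃ t ∈ T, ∃ t' ∈ T', t' ∉ T ∧ e ⊆ t ∧ e ⊆ t'
  other : ∀ e ∈ sides T', e ∉ E → ∀ t ∈ T', ∀ t' ∈ T', e ⊆ t → e ⊆ t' → (t ∈ T ↔ t' ∈ T)
  inner : ∀ v ∈ verts T, v ∈ interior (region T')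

/-- The interior sides (diagonals) of T. -/
def diags (T E : Finset (Finset Pt)) : Finset (Finset Pt) := (sides T).filter (fun e => e ∉ E)

variable {T' T E : Finset (Finset Pt)}

lemma mem_diags {e : Finset Pt} : e ∈ diags T E ↔ e ∈ sides T ∧ e ∉ E := by
  simp [diags]

theorem Part.isTri (h : Part T' T E) : IsTri T :=
  ⟨fun t ht => h.tri.tri t (h.sub ht), fun t ht t' ht' => h.tri.glue t (h.sub ht) t' (h.sub ht')⟩

private lemma Part_both_sides {S : Set Pt} {x y : Pt} (hxy : x ≠ y) (hx : x ∈ interior S) :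
    (∃ p ∈ S, 0 < det x y p) ∧ ∃ q ∈ S, 0 < det y x q := by
  have hcont : Filter.Tendsto (fun s : ℝ => x + s • ((x.2 - y.2, y.1 - x.1) : Pt)) (nhds 0)
      (nhds x) := by
    have h1 : Continuous (fun s : ℝ => x + s • ((x.2 - y.2, y.1 - x.1) : Pt)) := by fun_prop
    have h2 := h1.tendsto 0
    simpa using h2
  have hev := hcont (mem_interior_iff_mem_nhds.mp hx)
  rw [Filter.mem_map, Metric.mem_nhds_iff] at hev
  obtain ⟨d, hd, hball⟩ := hev
  have hpos : 0 < (y.1 - x.1) ^ 2 + (y.2 - x.2) ^ 2 := by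
    by_contra hcon
    push Not at hcon
    have h1 := sq_nonneg (y.1 - x.1)
    have h2 := sq_nonneg (y.2 - x.2)
    have h3 : (y.1 - x.1) ^ 2 = 0 := by linarith
    have h4 : (y.2 - x.2) ^ 2 = 0 := by linarith
    apply hxy
    apply Prod.ext
    · have := pow_eq_zero_iff (two_ne_zero) |>.1 h3
      linarith
    · have := pow_eq_zero_iff (two_ne_zero) |>.1 h4
      linarith
  refine ⟨⟨x + (d / 2) • ((x.2 - y.2, y.1 - x.1) : Pt), ?_, ?_⟩,
    ⟨x + (-(d / 2)) • ((x.2 - y.2, y.1 - x.1) : Pt), ?_, ?_⟩⟩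
  · exact hball (show d / 2 ∈ Metric.ball (0 : ℝ) d by
      simp [abs_of_pos hd]; linarith)
  · have h3 : det x y (x + (d / 2) • ((x.2 - y.2, y.1 - x.1) : Pt)) =
        d / 2 * ((y.1 - x.1) ^ 2 + (y.2 - x.2) ^ 2) := by
      simp only [det, Prod.fst_add, Prod.smul_fst, smul_eq_mul, Prod.snd_add, Prod.smul_snd]
      ring
    rw [h3]
    positivity
  · exact hball (show -(d / 2) ∈ Metric.ball (0 : ℝ) d by
      simp [abs_of_pos hd]; linarith)
  · have h3 : det y x (x + (-(d / 2)) • ((x.2 - y.2, y.1 - x.1) : Pt)) =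
        d / 2 * ((y.1 - x.1) ^ 2 + (y.2 - x.2) ^ 2) := by
      simp only [det, Prod.fst_add, Prod.smul_fst, smul_eq_mul, Prod.snd_add, Prod.smul_snd]
      ring
    rw [h3]
    positivity

/-- A diagonal is contained in exactly two triangles of T. -/
theorem Part.two_tri (h : Part T' T E) {e : Finset Pt} (he : e ∈ diags T E) :
    ∃ t1 ∈ T, ∃ t2 ∈ T, t1 ≠ t2 ∧ e ⊆ t1 ∧ e ⊆ t2 ∧ ∀ t ∈ T', e ⊆ t → t = t1 ∨ t = t2 := by
  obtain ⟨heS, heE⟩ := mem_diags.1 he
  obtain ⟨hcard, t, ht, het⟩ := mem_sides.1 heS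
  obtain ⟨x, y, hxy, rfl⟩ := Finset.card_eq_two.1 hcard
  have hS' : ({x, y} : Finset Pt) ∈ sides T' := mem_sides.2 ⟨hcard, t, h.sub ht, het⟩
  have hxT : x ∈ verts T := mem_verts.2 ⟨t, ht, het (by simp)⟩
  obtain ⟨⟨p, hp, hpd⟩, ⟨q, hq, hqd⟩⟩ := Part_both_sides hxy (h.inner x hxT)
  obtain ⟨w, hw, hwd⟩ := h.tri.side_left h.conv hS' hp hpd
  have hS'' : ({y, x} : Finset Pt) ∈ sides T' := by
    rw [Finset.pair_comm]
    exact hS'
  obtain ⟨w', hw', hwd'⟩ := h.tri.side_left h.conv hS'' hq hqd
  have e1 : ({x, y} : Finset Pt) ⊆ {x, y, w} := by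
    intro z hz
    simp only [Finset.mem_insert, Finset.mem_singleton] at hz ⊢
    tauto
  have e2 : ({x, y} : Finset Pt) ⊆ {y, x, w'} := by
    intro z hz
    simp only [Finset.mem_insert, Finset.mem_singleton] at hz ⊢
    tauto
  have hne : ({x, y, w} : Finset Pt) ≠ {y, x, w'} := by
    intro heq
    have h1 : w' ∈ ({x, y, w} : Finset Pt) := by
      rw [heq]
      simp
    simp only [Finset.mem_insert, Finset.mem_singleton] at h1
    rcases h1 with h1 | h1 | h1
    · rw [h1, det_abb] at hwd'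
      exact lt_irrefl _ hwd'
    · rw [h1, det_aba] at hwd'
      exact lt_irrefl _ hwd'
    · rw [h1, det_swap] at hwd'
      linarith
  refine ⟨{x, y, w}, (h.other _ hS' heE t (h.sub ht) _ hw het e1).1 ht, {y, x, w'},
    (h.other _ hS' heE t (h.sub ht) _ hw' het e2).1 ht, hne, e1, e2, ?_⟩
  intro s hs hes
  exact h.tri.side_two hcard hw hw' hs e1 e2 hes hne

/-- A boundary edge is contained in exactly one triangle of T. -/
theorem Part.one_tri (h : Part T' T E) {e : Finset Pt} (he : e ∈ E) :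
    ∃ t1 ∈ T, e ⊆ t1 ∧ ∀ t ∈ T, e ⊆ t → t = t1 := by
  obtain ⟨t, ht, t', ht', hnt, e1, e2⟩ := h.edge_one e he
  have hcard := (mem_sides.1 (h.edge_side he)).1
  refine ⟨t, ht, e1, ?_⟩
  intro s hs hes
  have hne : t ≠ t' := by
    rintro rfl
    exact hnt ht
  rcases h.tri.side_two hcard (h.sub ht) ht' (h.sub hs) e1 e2 hes hne with h1 | h1
  · exact h1
  · exact absurd (h1 ▸ hs) hnt

/-- Counting sides: three times the number of triangles. -/
theorem Part.count (h : Part T' T E) : 3 * T.card = 2 * (diags T E).card + E.card := by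
  have hEs : E ⊆ sides T := by
    intro e he
    obtain ⟨t, ht, e1, -⟩ := h.one_tri he
    exact mem_sides.2 ⟨(mem_sides.1 (h.edge_side he)).1, t, ht, e1⟩
  have h1 := Finset.sum_card_bipartiteAbove_eq_sum_card_bipartiteBelow
    (s := T) (t := sides T) (fun (t : Finset Pt) (e : Finset Pt) => e ⊆ t)
  have h2 : ∑ t ∈ T, ((sides T).bipartiteAbove
      (fun (t : Finset Pt) (e : Finset Pt) => e ⊆ t) t).card = 3 * T.card := by
    have h3 : ∀ t ∈ T, ((sides T).bipartiteAbove
        (fun (t : Finset Pt) (e : Finset Pt) => e ⊆ t) t).card = 3 := by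
      intro t ht
      have h4 : (sides T).bipartiteAbove (fun (t : Finset Pt) (e : Finset Pt) => e ⊆ t) t =
          t.powersetCard 2 := by
        ext e
        rw [Finset.mem_bipartiteAbove, Finset.mem_powersetCard, mem_sides]
        constructor
        · rintro ⟨⟨h5, -⟩, h6⟩
          exact ⟨h6, h5⟩
        · rintro ⟨h5, h6⟩
          exact ⟨⟨h6, t, ht, h5⟩, h5⟩
      rw [h4, Finset.card_powersetCard, h.isTri.card ht]
      rfl
    rw [Finset.sum_congr rfl h3, Finset.sum_const, smul_eq_mul, mul_comm]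
  have h5 : ∑ e ∈ sides T, (T.bipartiteBelow
      (fun (t : Finset Pt) (e : Finset Pt) => e ⊆ t) e).card = 2 * (diags T E).card + E.card := by
    rw [← Finset.sum_filter_add_sum_filter_not (sides T) (fun e => e ∈ E)]
    have h6 : (sides T).filter (fun e => e ∈ E) = E := by
      ext e
      rw [Finset.mem_filter]
      exact ⟨fun h7 => h7.2, fun h7 => ⟨hEs h7, h7⟩⟩
    have h7 : ∀ e ∈ E, (T.bipartiteBelow
        (fun (t : Finset Pt) (e : Finset Pt) => e ⊆ t) e).card = 1 := by
      intro e he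
      obtain ⟨t, ht, e1, e2⟩ := h.one_tri he
      rw [Finset.card_eq_one]
      refine ⟨t, ?_⟩
      ext s
      rw [Finset.mem_bipartiteBelow, Finset.mem_singleton]
      constructor
      · rintro ⟨hs, hes⟩
        exact e2 s hs hes
      · rintro rfl
        exact ⟨ht, e1⟩
    have h8 : ∀ e ∈ (sides T).filter (fun e => ¬ e ∈ E), (T.bipartiteBelow
        (fun (t : Finset Pt) (e : Finset Pt) => e ⊆ t) e).card = 2 := by
      intro e he
      obtain ⟨t1, ht1, t2, ht2, hne, e1, e2, e3⟩ := h.two_tri (e := e) he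
      rw [Finset.card_eq_two]
      refine ⟨t1, t2, hne, ?_⟩
      ext s
      rw [Finset.mem_bipartiteBelow, Finset.mem_insert, Finset.mem_singleton]
      constructor
      · rintro ⟨hs, hes⟩
        exact e3 s (h.sub hs) hes
      · rintro (rfl | rfl)
        · exact ⟨ht1, e1⟩
        · exact ⟨ht2, e2⟩
    rw [h6, Finset.sum_congr rfl h7, Finset.sum_congr rfl h8, Finset.sum_const, Finset.sum_const,
      smul_eq_mul, smul_eq_mul, mul_one, mul_comm, add_comm]
    rfl
  rw [← h2, ← h5, h1]

end Pool.Agent.Helper69.AGF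

end
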