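import Pool.Agent.Helper69.AGF.Part

/-!
Definitions for the rank estimate: dual graph and Z/2 boundary map.
-/

noncomputable section

open scoped Classical

namespace Pool.Agent.Helper69.AGF

/-- The dual graph of T. -/
def dual (T : Finset (Finset Pt)) : SimpleGraph {t // t ∈ T} where
  Adj t t' := Adj T (fun _ => True) t.1 t'.1
  symm := ⟨by
    rintro a b ⟨h1, h2, h3, e, h4, h5, h6, h7⟩
    exact ⟨h2, h1, h3.symm, e, h4, h6, h5, h7⟩⟩
  loopless := ⟨fun a h => h.2.2.1 rfl⟩

/-- The map which sends a Z/2 chain on the diagonals to its values on the triangles (sum over the three sides). -/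
def bdMap (T E : Finset (Finset Pt)) :
    ({e // e ∈ diags T E} → ZMod 2) →ₗ[ZMod 2] ({t // t ∈ T} → ZMod 2) where
  toFun z t := ∑ e : {e // e ∈ diags T E}, if e.1 ⊆ t.1 then z e else 0
  map_add' z z' := by
    funext t
    simp only [Pi.add_apply, ← Finset.sum_add_distrib]
    refine Finset.sum_congr rfl fun e _ => ?_
    split_ifs <;> simp
  map_smul' c z := by
    funext t
    simp only [Pi.smul_apply, smul_eq_mul, RingHom.id_apply, Finset.mul_sum]
    refine Finset.sum_congr rfl fun e _ => ?_
    split_ifs <;> simp

end Pool.Agent.Helper69.AGF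

end
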