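import Pool.Agent.Helper69.AGF.RankDefs

/-!
AGF module RankLow: lower bound for the dimension of the cycle space (rank-nullity).

PROOF HINTS. psi : ({t // t in T} -> ZMod 2) linear -> ((dual T).ConnectedComponent -> ZMod 2), psi w C = sum of w t over the t with
connectedComponentMk t = C. psi is surjective (choose a representative t_C of every component and w = indicator of t_C times the value), so
finrank (ker psi) = T.card - c (LinearMap.finrank_range_add_finrank_ker; finrank of functions = Fintype.card). psi (bdMap z) = 0: every
diagonal e lies in exactly two triangles t1, t2 of T (Part.two_tri), which are adjacent in the dual graph (common side e, e.card = 2 by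
mem_sides), so they are in the same component, and the contribution of e is z e + z e = 0 (CharTwo / ZMod 2: decide). So range (bdMap) is
contained in ker psi, finrank (range) <= T.card - c, and finrank (ker bdMap) = D - finrank (range) >= D - (T.card - c).
-/

noncomputable section

open scoped Classical

namespace Pool.Agent.Helper69.AGF

variable {T' T E : Finset (Finset Pt)}

private def psi (T : Finset (Finset Pt)) :
    ({t // t ∈ T} → ZMod 2) →ₗ[ZMod 2] ((dual T).ConnectedComponent → ZMod 2) where
  toFun w C := ∑ t : {t // t ∈ T}, if (dual T).connectedComponentMk t = C then w t else 0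
  map_add' z z' := by
    funext t
    simp only [Pi.add_apply, ← Finset.sum_add_distrib]
    refine Finset.sum_congr rfl fun e _ => ?_
    split_ifs <;> simp
  map_smul' c z := by
    funext t
    simp only [Pi.smul_apply, smul_eq_mul, RingHom.id_apply, Finset.mul_sum]
    refine Finset.sum_congr rfl fun e _ => ?_
    split_ifs <;> simp

private lemma psi_surj (T : Finset (Finset Pt)) : Function.Surjective (psi T) := by
  intro f
  have hrep : ∀ C : (dual T).ConnectedComponent, ∃ t, (dual T).connectedComponentMk t = C :=
    fun C => C.exists_rep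
  choose r hr using hrep
  refine ⟨fun t => if r ((dual T).connectedComponentMk t) = t
    then f ((dual T).connectedComponentMk t) else 0, ?_⟩
  funext C
  change (∑ t : {t // t ∈ T}, if (dual T).connectedComponentMk t = C then
    (if r ((dual T).connectedComponentMk t) = t then f ((dual T).connectedComponentMk t) else 0)
      else 0) = f C
  rw [Finset.sum_eq_single (r C)]
  · rw [if_pos (hr C), hr C, if_pos rfl]
  · intro t _ ht
    split_ifs with h1 h2
    · exact absurd (by rw [← h2, h1]) ht
    · rfl
    · rfl
  · intro hn
    exact absurd (Finset.mem_univ _) hn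

private lemma psi_bd (h : Part T' T E) (z : {e // e ∈ diags T E} → ZMod 2) :
    psi T (bdMap T E z) = 0 := by
  funext C
  change (∑ t : {t // t ∈ T}, if (dual T).connectedComponentMk t = C then
    (∑ e : {e // e ∈ diags T E}, if e.1 ⊆ t.1 then z e else 0) else 0) = 0
  have h1 : ∀ t : {t // t ∈ T}, (if (dual T).connectedComponentMk t = C then
      (∑ e : {e // e ∈ diags T E}, if e.1 ⊆ t.1 then z e else 0) else 0) =
      ∑ e : {e // e ∈ diags T E}, (if (dual T).connectedComponentMk t = C then
        (if e.1 ⊆ t.1 then z e else 0) else 0) := by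
    intro t
    split_ifs
    · rfl
    · simp
  rw [Finset.sum_congr rfl fun t _ => h1 t, Finset.sum_comm]
  refine Finset.sum_eq_zero fun e _ => ?_
  obtain ⟨t1, ht1, t2, ht2, hne, e1, e2, huniq⟩ := h.two_tri e.2
  have hcc : (dual T).connectedComponentMk ⟨t1, ht1⟩ = (dual T).connectedComponentMk ⟨t2, ht2⟩ := by
    refine SimpleGraph.ConnectedComponent.sound (SimpleGraph.Adj.reachable ?_)
    exact ⟨ht1, ht2, hne, e.1, (mem_sides.1 (mem_diags.1 e.2).1).1, e1, e2, trivial⟩
  rw [Fintype.sum_eq_add (⟨t1, ht1⟩ : {t // t ∈ T}) ⟨t2, ht2⟩
    (fun hh => hne (congrArg Subtype.val hh))]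
  · simp only [hcc, if_pos e1, if_pos e2]
    exact CharTwo.add_self_eq_zero _
  · rintro ⟨t, ht⟩ ⟨hx1, hx2⟩
    have : ¬ e.1 ⊆ t := by
      intro hs
      rcases huniq t (h.sub ht) hs with rfl | rfl
      · exact hx1 rfl
      · exact hx2 rfl
    simp [this]

theorem Part.rank_low (h : Part T' T E) :
    (diags T E).card + Nat.card (dual T).ConnectedComponent ≤
      T.card + Module.finrank (ZMod 2) (LinearMap.ker (bdMap T E)) := by
  have hle : LinearMap.range (bdMap T E) ≤ LinearMap.ker (psi T) := by
    rintro _ ⟨z, rfl⟩
    exact psi_bd h z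
  have h1 := LinearMap.finrank_range_add_finrank_ker (bdMap T E)
  have h2 := LinearMap.finrank_range_add_finrank_ker (psi T)
  rw [LinearMap.range_eq_top.2 (psi_surj T), finrank_top] at h2
  have h3 := Submodule.finrank_mono hle
  haveI : Fintype (dual T).ConnectedComponent := Fintype.ofFinite _
  rw [Module.finrank_fintype_fun_eq_card, Module.finrank_fintype_fun_eq_card] at h2
  rw [Module.finrank_fintype_fun_eq_card] at h1
  have h4 : Fintype.card {e // e ∈ diags T E} = (diags T E).card := Fintype.card_coe _
  have h5 : Fintype.card {t // t ∈ T} = T.card := Fintype.card_coe _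
  rw [h4] at h1
  rw [h5] at h2
  rw [Nat.card_eq_fintype_card]
  omega

end Pool.Agent.Helper69.AGF

end
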