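import Pool.Agent.Helper69.AGF.Vert

/-!
AGF module Star: the star of a vertex covers all directions into the region.

PROOF HINTS.
start_in_triangle: for n : Nat the point x_n = v + (1/(n+1)) (p - v) is in the segment, so in hull t_n for some t_n in T. T is
  finite, so one t in T occurs for infinitely many n (e.g. Finite.exists_infinite_fiber, or Filter.Frequently over a finite
  union). x_n -> v and hull t is closed (isClosed_hull), so v in hull t. Take any such n: e = 1/(n+1).
star_dir: start_in_triangle gives t with v in hull t; vert_mem gives v in t.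
side_left: m = midpoint of x and y; m in region (it lies in the hull of the triangle t0 containing {x,y}), so segment m p is in the
  region. start_in_triangle gives t in T, m in hull t, e > 0, m + e (p - m) in hull t. By glue m in hull (t cap t0),
  t0 = {x,y,w0}, det x y w0 <> 0. Claim: x and y in t: t cap t0 is a subset of t0 whose hull contains m; if x is not in it, it is a
  subset of {y,w0}, so m in segment y w0, hence det y w0 m = 0, but det y w0 m = (det y w0 x + 0)/2 <> 0. Same for y.
  So t = {x,y,w} (third) with det x y w <> 0; the point m + e (p - m) of hull t has det x y = e det x y p > 0, and all points of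
  hull {x,y,w} have det x y = (nonnegative) * det x y w (mem_hull3_comb, det_comb3), so det x y w > 0.
-/

noncomputable section

namespace Pool.Agent.Helper69.AGF

variable {T : Finset (Finset Pt)}

/-- If the segment from the point v of the region to p stays in the region, its beginning is contained in one
triangle which contains v. -/
theorem start_in_triangle {v p : Pt} (hp : segment ℝ v p ⊆ region T) :
    ∃ t ∈ T, v ∈ hull t ∧ ∃ ε : ℝ, 0 < ε ∧ ε ≤ 1 ∧ v + ε • (p - v) ∈ hull t := by
  have hle : ∀ n : ℕ, 1 / ((n : ℝ) + 1) ≤ 1 := by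
    intro n
    have h0 : (0 : ℝ) ≤ n := Nat.cast_nonneg n
    rw [div_le_one (by linarith)]
    linarith
  have hpos : ∀ n : ℕ, (0 : ℝ) < 1 / ((n : ℝ) + 1) := by
    intro n
    positivity
  have hx : ∀ n : ℕ, ∃ t : T, v + (1 / ((n : ℝ) + 1)) • (p - v) ∈ hull t.1 := by
    intro n
    have h1 : v + (1 / ((n : ℝ) + 1)) • (p - v) ∈ segment ℝ v p := by
      rw [segment_eq_image']
      exact ⟨1 / ((n : ℝ) + 1), ⟨(hpos n).le, hle n⟩, rfl⟩
    obtain ⟨t, ht, h2⟩ := mem_region.mp (hp h1)
    exact ⟨⟨t, ht⟩, h2⟩
  choose f hf using hx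
  obtain ⟨t, ht⟩ := Finite.exists_infinite_fiber f
  have hinf : (f ⁻¹' {t}).Infinite := Set.infinite_coe_iff.mp ht
  have hfreq : ∃ᶠ n in Filter.atTop, f n = t := Nat.frequently_atTop_iff_infinite.mpr hinf
  have hlim : Filter.Tendsto (fun n : ℕ => v + (1 / ((n : ℝ) + 1)) • (p - v)) Filter.atTop
      (nhds v) := by
    have h1 := tendsto_one_div_add_atTop_nhds_zero_nat (𝕜 := ℝ)
    have h2 := (h1.smul_const (p - v)).const_add v
    simpa using h2
  refine ⟨t.1, t.2, ?_, ?_⟩
  · refine (isClosed_hull t.1).mem_of_frequently_of_tendsto (hfreq.mono fun n hn => ?_) hlim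
    rw [← hn]
    exact hf n
  · obtain ⟨n, hn⟩ := hfreq.exists
    refine ⟨1 / ((n : ℝ) + 1), hpos n, hle n, ?_⟩
    rw [← hn]
    exact hf n

/-- The same for a vertex v. -/
theorem IsTri.star_dir (hT : IsTri T) {v p : Pt} (hv : v ∈ verts T)
    (hp : segment ℝ v p ⊆ region T) :
    ∃ t ∈ T, v ∈ t ∧ ∃ ε : ℝ, 0 < ε ∧ ε ≤ 1 ∧ v + ε • (p - v) ∈ hull t := by
  obtain ⟨t, ht, hvt, h⟩ := start_in_triangle hp
  exact ⟨t, ht, hT.vert_mem hv ht hvt, h⟩

/-- A side {x,y} with a point of the (convex) region strictly on its left has a triangle on its left. -/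
theorem IsTri.side_left (hT : IsTri T) (hconv : Convex ℝ (region T)) {x y p : Pt}
    (hxy : ({x, y} : Finset Pt) ∈ sides T) (hp : p ∈ region T) (hd : 0 < det x y p) :
    ∃ w, ({x, y, w} : Finset Pt) ∈ T ∧ 0 < det x y w := by
  obtain ⟨hcard, t0, ht0, hsub⟩ := mem_sides.mp hxy
  have hne : x ≠ y := by
    intro h
    rw [h] at hcard
    simp at hcard
  obtain ⟨w0, rfl, hd0⟩ := hT.third ht0 hne hsub
  set m : Pt := (1 / 2 : ℝ) • x + (1 / 2 : ℝ) • y with hm
  have hmseg : m ∈ segment ℝ x y := ⟨1 / 2, 1 / 2, by norm_num, by norm_num, by norm_num, rfl⟩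
  have hmh : m ∈ hull ({x, y, w0} : Finset Pt) := by
    have h1 : m ∈ hull ({x, y} : Finset Pt) := by
      rw [hull_pair]
      exact hmseg
    exact hull_mono hsub h1
  have hmreg : m ∈ region T := mem_region.mpr ⟨_, ht0, hmh⟩
  obtain ⟨t, ht, hmt, ε, hε, _, hq⟩ := start_in_triangle (hconv.segment_subset hmreg hp)
  have hmi : m ∈ hull (t ∩ {x, y, w0}) := hT.glue t ht _ ht0 ⟨hmt, hmh⟩
  have hyx : x ∈ t := by
    by_contra hx
    have hs : t ∩ {x, y, w0} ⊆ ({y, w0} : Finset Pt) := by
      intro z hz
      simp only [Finset.mem_inter, Finset.mem_insert, Finset.mem_singleton] at hz ⊢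
      rcases hz with ⟨h1, h2 | h2 | h2⟩
      · subst h2; exact absurd h1 hx
      · exact Or.inl h2
      · exact Or.inr h2
    have h1 := hull_mono hs hmi
    rw [hull_pair] at h1
    have h2 := det_of_mem_segment h1
    rw [hm, det_comb _ _ _ _ _ _ (by norm_num), det_rot, det_aba] at h2
    apply hd0
    linarith
  have hyy : y ∈ t := by
    by_contra hx
    have hs : t ∩ {x, y, w0} ⊆ ({w0, x} : Finset Pt) := by
      intro z hz
      simp only [Finset.mem_inter, Finset.mem_insert, Finset.mem_singleton] at hz ⊢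
      rcases hz with ⟨h1, h2 | h2 | h2⟩
      · exact Or.inr h2
      · subst h2; exact absurd h1 hx
      · exact Or.inl h2
    have h1 := hull_mono hs hmi
    rw [hull_pair] at h1
    have h2 := det_of_mem_segment h1
    rw [hm, det_comb _ _ _ _ _ _ (by norm_num), det_abb, det_rot'] at h2
    apply hd0
    linarith
  obtain ⟨w, rfl, hd1⟩ := hT.third ht hne (by
    intro z hz
    simp only [Finset.mem_insert, Finset.mem_singleton] at hz
    rcases hz with h | h
    · rw [h]; exact hyx
    · rw [h]; exact hyy)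
  refine ⟨w, ht, ?_⟩
  have hval : det x y (m + ε • (p - m)) = ε * det x y p := by
    have h1 : m + ε • (p - m) = (1 - ε) • m + ε • p := by
      rw [smul_sub, sub_smul, one_smul]
      abel
    rw [h1, det_comb _ _ _ _ _ _ (by ring), det_of_mem_segment hmseg]
    ring
  rw [mem_hull3_comb] at hq
  obtain ⟨r, s, u, _, _, hu, h1, hqe⟩ := hq
  rw [hqe, det_comb3 _ _ _ _ _ _ _ _ h1, det_aba, det_abb] at hval
  have h2 : 0 < u * det x y w := by
    have h3 : 0 < ε * det x y p := mul_pos hε hd
    linarith
  exact (pos_iff_pos_of_mul_pos h2).mp (lt_of_le_of_ne hu (by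
    rintro rfl
    simp at h2))

end Pool.Agent.Helper69.AGF

end
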