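import Pool.Agent.Helper69.AGF.Basic

/-!
AGF module Vert: vertices and directions of sides.

PROOF HINTS.
vert_mem: v in some t0 in T (mem_verts). v in hull t cap hull t0, so by glue v in hull (t cap t0). t0 = {a,b,c} with
  det <> 0, t cap t0 subset t0, so vertex_mem_of_hull (Det.lean) gives v in t cap t0.
same_dir: if c <= 1 then u' = v + c (u - v) is in segment v u, contained in hull t where {v,u} subset t in T; u' in verts T,
  so u' in t by vert_mem; t = {v,u,w} (third), u' = w is impossible (det v u u' = 0), u' = v impossible (card {v,u'} = 2), so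
  u' = u. If c > 1 exchange u and u' (c^-1).
not_in_cone: Suppose 0 < det v p u and 0 < det v u q. For small e > 0 the point x = v + e (u - v) satisfies
  det v p x = e det v p u > 0, det q v x = e det q v u = e det v u q > 0, det p q x = (1-e) det p q v + e det p q u > 0 for e
  small (det p q v = det v p q > 0), so x is in hull {v,p,q} with all three determinants positive. It is also in the hull of a
  triangle t' = {v,u,w} in T containing {v,u}. By glue x in hull ({v,p,q} cap t'). If {v,p,q} cap t' = {v,p,q} then t' = {v,p,q} and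
  u in {p,q} (u <> v by card), contradiction to the positive determinants (det v p p = 0, det v q q = 0). Otherwise the intersection misses
  p or q or v, i.e. is contained in {v,q}, {v,p} or {p,q}, and x in the hull (a segment) makes one determinant zero.
-/

noncomputable section

namespace Pool.Agent.Helper69.AGF

variable {T : Finset (Finset Pt)}

/-- A vertex of the complex which lies in a triangle of the complex is a vertex of the triangle. -/
theorem IsTri.vert_mem (hT : IsTri T) {v : Pt} (hv : v ∈ verts T) {t : Finset Pt} (ht : t ∈ T)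
    (h : v ∈ hull t) : v ∈ t := by
  obtain ⟨t0, ht0, hv0⟩ := mem_verts.mp hv
  have h1 : v ∈ hull (t ∩ t0) := hT.glue t ht t0 ht0 ⟨h, subset_hull hv0⟩
  obtain ⟨a, b, c, rfl, habc⟩ := hT.tri t0 ht0
  exact (Finset.mem_inter.mp
    (vertex_mem_of_hull habc.ne' Finset.inter_subset_right hv0 h1)).1

/-- The case of a factor at most one. -/
private theorem IsTri.same_dir_aux (hT : IsTri T) {v u u' : Pt} (hu : ({v, u} : Finset Pt) ∈ sides T)
    (hu' : ({v, u'} : Finset Pt) ∈ sides T) {c : ℝ} (hc : 0 < c) (hc1 : c ≤ 1)
    (h : u' - v = c • (u - v)) : u = u' := by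
  obtain ⟨hcard, t, ht, hsub⟩ := mem_sides.mp hu
  obtain ⟨hcard', t', ht', hsub'⟩ := mem_sides.mp hu'
  have hvu : v ≠ u := by
    rintro rfl
    simp at hcard
  have hvu' : v ≠ u' := by
    rintro rfl
    simp at hcard'
  have hseg : u' ∈ segment ℝ v u := by
    refine ⟨1 - c, c, by linarith, hc.le, by ring, ?_⟩
    have : u' = v + c • (u - v) := by rw [← h]; abel
    rw [this, smul_sub, sub_smul, one_smul]
    abel
  have hmem : u' ∈ hull t := hull_mono hsub (by rw [hull_pair]; exact hseg)
  have hver : u' ∈ verts T := mem_verts.mpr ⟨t', ht', hsub' (by simp)⟩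
  have hut := hT.vert_mem hver ht hmem
  obtain ⟨w, rfl, hw⟩ := hT.third ht hvu hsub
  simp only [Finset.mem_insert, Finset.mem_singleton] at hut
  rcases hut with h1 | h1 | h1
  · exact absurd h1.symm hvu'
  · exact h1.symm
  · subst h1
    exact absurd (det_of_mem_segment hseg) hw

/-- Two sides at v with the same direction are equal. -/
theorem IsTri.same_dir (hT : IsTri T) {v u u' : Pt} (hu : ({v, u} : Finset Pt) ∈ sides T)
    (hu' : ({v, u'} : Finset Pt) ∈ sides T) {c : ℝ} (hc : 0 < c) (h : u' - v = c • (u - v)) :
    u = u' := by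
  rcases le_total c 1 with h1 | h1
  · exact hT.same_dir_aux hu hu' hc h1 h
  · refine (hT.same_dir_aux hu' hu (inv_pos.mpr hc) (inv_le_one_of_one_le₀ h1) ?_).symm
    rw [h, smul_smul, inv_mul_cancel₀ hc.ne', one_smul]

/-- A side at v is not strictly inside a triangle at v. -/
theorem IsTri.not_in_cone (hT : IsTri T) {v p q u : Pt} (ht : ({v, p, q} : Finset Pt) ∈ T)
    (hd : 0 < det v p q) (hu : ({v, u} : Finset Pt) ∈ sides T) :
    ¬ (0 < det v p u ∧ 0 < det v u q) := by
  rintro ⟨h1, h2⟩
  obtain ⟨hcard, t', ht', hsub⟩ := mem_sides.mp hu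
  have hvu : v ≠ u := by
    rintro rfl
    simp at hcard
  have hD : 0 < det p q v := by rw [det_rot]; exact hd
  set D := det p q v with hDdef
  set X := det p q u with hXdef
  have hden : 0 < D + |X| + 1 := by positivity
  obtain ⟨e, he0, he1, heq⟩ : ∃ e : ℝ, 0 < e ∧ e ≤ 1 ∧ 0 < (1 - e) * D + e * X := by
    refine ⟨D / (D + |X| + 1), by positivity, ?_, ?_⟩
    · rw [div_le_one hden]
      have := abs_nonneg X
      linarith
    · have h3 : 0 < D / (D + |X| + 1) := by positivity
      have h4 : D / (D + |X| + 1) * (D + |X| + 1) = D := div_mul_cancel₀ D hden.ne'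
      have h5 : -|X| ≤ X := neg_abs_le X
      nlinarith
  set x : Pt := (1 - e) • v + e • u with hx
  have hsum : (1 - e) + e = 1 := by ring
  have d1 : 0 < det v p x := by
    rw [hx, det_comb _ _ _ _ _ _ hsum, det_aba, mul_zero, zero_add]
    exact mul_pos he0 h1
  have d2 : 0 < det p q x := by
    rw [hx, det_comb _ _ _ _ _ _ hsum]
    exact heq
  have d3 : 0 < det q v x := by
    rw [hx, det_comb _ _ _ _ _ _ hsum, det_abb, mul_zero, zero_add, det_rot']
    exact mul_pos he0 h2
  have m1 : x ∈ hull {v, p, q} := (mem_hull3 hd).mpr ⟨d1.le, d2.le, d3.le⟩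
  have m2 : x ∈ hull t' := by
    refine hull_mono hsub ?_
    rw [hull_pair]
    exact ⟨1 - e, e, by linarith, he0.le, hsum, rfl⟩
  have m3 := hT.glue _ ht _ ht' ⟨m1, m2⟩
  by_cases hv : v ∈ t'
  · by_cases hp : p ∈ t'
    · by_cases hq : q ∈ t'
      · have hsub3 : ({v, p, q} : Finset Pt) ⊆ t' := by
          intro y hy
          simp only [Finset.mem_insert, Finset.mem_singleton] at hy
          rcases hy with rfl | rfl | rfl
          · exact hv
          · exact hp
          · exact hq
        have heq3 : ({v, p, q} : Finset Pt) = t' :=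
          Finset.eq_of_subset_of_card_le hsub3 (by rw [hT.card ht, hT.card ht'])
        have hu3 : u ∈ ({v, p, q} : Finset Pt) := by
          rw [heq3]
          exact hsub (by simp)
        simp only [Finset.mem_insert, Finset.mem_singleton] at hu3
        rcases hu3 with h3 | h3 | h3
        · exact hvu h3.symm
        · rw [h3] at h1
          simp at h1
        · rw [h3] at h2
          simp at h2
      · have hs : ({v, p, q} : Finset Pt) ∩ t' ⊆ {v, p} := by
          intro y hy
          simp only [Finset.mem_inter, Finset.mem_insert, Finset.mem_singleton] at hy ⊢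
          rcases hy with ⟨rfl | rfl | rfl, hy⟩
          · exact Or.inl rfl
          · exact Or.inr rfl
          · exact absurd hy hq
        have := hull_mono hs m3
        rw [mem_hull2] at this
        exact d1.ne' (det_of_mem_segment this)
    · have hs : ({v, p, q} : Finset Pt) ∩ t' ⊆ {q, v} := by
        intro y hy
        simp only [Finset.mem_inter, Finset.mem_insert, Finset.mem_singleton] at hy ⊢
        rcases hy with ⟨rfl | rfl | rfl, hy⟩
        · exact Or.inr rfl
        · exact absurd hy hp
        · exact Or.inl rfl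
      have := hull_mono hs m3
      rw [mem_hull2] at this
      exact d3.ne' (det_of_mem_segment this)
  · have hs : ({v, p, q} : Finset Pt) ∩ t' ⊆ {p, q} := by
      intro y hy
      simp only [Finset.mem_inter, Finset.mem_insert, Finset.mem_singleton] at hy ⊢
      rcases hy with ⟨rfl | rfl | rfl, hy⟩
      · exact absurd hy hv
      · exact Or.inl rfl
      · exact Or.inr rfl
    have := hull_mono hs m3
    rw [mem_hull2] at this
    exact d2.ne' (det_of_mem_segment this)

end Pool.Agent.Helper69.AGF

end
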